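import Pool.Agent.Helper23K9.T5.Fin5

/-!
# The universal curve with a point of order five and one more point

The curve is `y² + (1 - b) x y - b y = x³ - b x²`, the further point `(x, u x)`; with `w = u² + u - x`
we have `b = w (u² + u - w) / (u³ - (u - 1) w)`.
-/

set_option autoImplicit false
set_option linter.all false

open Polynomial IsDedekindDomain WeierstrassCurve WeierstrassCurve.Affine
open scoped Classical

namespace Pool.Agent.Helper70K9.R5

open Pool.Agent.TH115.GD (vInf pl Pt act incl rs Sep IsTower mem_pl act_act act_some)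
open Pool.Agent.Helper7K9.T3 (TateAt IsTateClass tate_of_part)
open Pool.Agent.Helper23K9.T5

/-- The first coordinate of the point: `x = u² + u - w`. -/
noncomputable def wx {R : Type} [CommRing R] (u w : R[X]) : R[X] := u ^ 2 + u - w

/-- The denominator of `b`: `γ = u³ - (u - 1) w`. -/
noncomputable def wg {R : Type} [CommRing R] (u w : R[X]) : R[X] := u ^ 3 - (u - 1) * w

/-- The curve `y² + (1 - b) x y - b y = x³ - b x²` with `b = w (u² + u - w) / (u³ - (u - 1) w)`. -/
noncomputable def crvW (K : Type) {k : Type} [Field k] [Field K] [Algebra k[X] K] (u w : k[X]) :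
    WeierstrassCurve K := crvQ K (w * wx u w) (wg u w)

/-- The Tate conjecture at 5 for the curve, and the point `(x, u x)` has infinite order. -/
def TateW (k' K F : Type) {k : Type} [Field k] [Field k'] [Field K] [Algebra k[X] K] [Field F]
    [Algebra k'[X] F] [IsFractionRing k'[X] F] [Algebra K F] (u w : k[X]) : Prop :=
  TateAt (F := F) 5 k' (crvW K u w) ∧ ∃ Q : Pt (crvW K u w) K,
    (∃ hn, Q = Point.some (algebraMap k[X] K (wx u w)) (algebraMap k[X] K (u * wx u w)) hn) ∧
      ∀ n : ℕ, n ≠ 0 → n • Q ≠ 0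

section mid

variable {k k1 k' K F : Type} [Field k] [Field k1] [Field k'] [Algebra k k1]
    [Algebra k1 k'] [Algebra k k'] [IsScalarTower k k1 k'] [Field K] [Algebra k[X] K]
    [Field F] [Algebra k'[X] F] [IsFractionRing k'[X] F] [Algebra K F]

/-- a place at which `p` vanishes simply, and not `q1`, `q2` -/
theorem place2 [IsSepClosure k k'] [IsFractionRing k[X] K] (hKF : ∀ p : k[X],
      algebraMap K F (algebraMap k[X] K p) = algebraMap k'[X] F (p.map (algebraMap k k')))
    {p q1 q2 : k[X]} (hi : Irreducible p) (hs : p.Separable) (h1 : q1 ≠ 0) (h2 : q2 ≠ 0)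
    (c1 : IsCoprime p q1) (c2 : IsCoprime p q2) :
    ∃ v : HeightOneSpectrum k'[X], om5 v (algebraMap K F (algebraMap k[X] K p)) = 1 ∧
      om5 v (algebraMap K F (algebraMap k[X] K q1)) = 0 ∧
      om5 v (algebraMap K F (algebraMap k[X] K q2)) = 0 := by
  haveI : IsSepClosed k' := IsSepClosure.sep_closed k
  obtain ⟨θ, hθ, hmu⟩ := sep_root (k' := k') hi hs
  have key : ∀ q : k[X], q ≠ 0 → IsCoprime p q →
      om5 (pl θ) (algebraMap K F (algebraMap k[X] K q)) = 0 := by
    intro q hq hc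
    rw [om5_root hKF q hq]
    have hqr : ¬ (q.map (algebraMap k k')).IsRoot θ := by
      have h1 := cop_root hc hθ
      rwa [mem_pl] at h1
    rw [rootMultiplicity_eq_zero hqr, Nat.cast_zero]
  refine ⟨pl θ, ?_, key q1 h1 c1, key q2 h2 c2⟩
  rw [om5_root hKF p hi.ne_zero, hmu, Nat.cast_one]

/-- **The criterion for the universal curve.** -/
theorem tate_w [CharZero k] [Fact (Nat.Prime 5)] (hT : IsTower k k' K F) {z0 : k1}
    (hz0 : IsZ z0) {u w : k[X]} (i1 : Irreducible w) (i2 : Irreducible (wx u w))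
    (i3 : Irreducible (wg u w)) (c12 : IsCoprime w (wx u w)) (c13 : IsCoprime w (wg u w))
    (c23 : IsCoprime (wx u w) (wg u w))
    (hC : Crit5 z0 ((w * wx u w).map (algebraMap k k1)) ((wg u w).map (algebraMap k k1)))
    (hN : nn5 z0 ((w * wx u w).map (algebraMap k k1)) ((wg u w).map (algebraMap k k1)) ≤ 5) :
    TateW k' K F u w := by
  have h5k : (5 : k) ≠ 0 := by norm_num
  obtain ⟨b, eb⟩ : ∃ b : K, b = algebraMap k[X] K (w * wx u w) / algebraMap k[X] K (wg u w) :=
    ⟨_, rfl⟩
  obtain ⟨h5, hb, hd, -, htor, -⟩ := mid5 hT h5k hz0 hC eb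
  haveI : IsFractionRing k[X] K := hT.fracK
  haveI := hT.sep
  have hKF := hT.map
  have hK := isE5 b K h5 hb hd
  have hF := isE5 b F h5 hb hd
  have nK : ∀ p : k[X], p ≠ 0 → algebraMap k[X] K p ≠ 0 := by
    intro p hp
    simpa using hp
  have nF : ∀ p : k[X], p ≠ 0 → algebraMap K F (algebraMap k[X] K p) ≠ 0 := by
    intro p hp
    exact (_root_.map_ne_zero _).2 (nK p hp)
  have w0 := i1.ne_zero
  have x0 := i2.ne_zero
  have g0 := i3.ne_zero
  obtain ⟨U, hU⟩ : ∃ U : K, U = algebraMap k[X] K u := ⟨_, rfl⟩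
  obtain ⟨W, hW⟩ : ∃ W : K, W = algebraMap k[X] K w := ⟨_, rfl⟩
  obtain ⟨X, hX⟩ : ∃ X : K, X = algebraMap k[X] K (wx u w) := ⟨_, rfl⟩
  obtain ⟨G, hG⟩ : ∃ G : K, G = algebraMap k[X] K (wg u w) := ⟨_, rfl⟩
  have eX : X = U ^ 2 + U - W := by
    rw [hX, wx, map_sub, map_add, map_pow, hU, hW]
  have eG : G = U ^ 3 - (U - 1) * W := by
    rw [hG, wg, map_sub, map_mul, map_sub, map_one, map_pow, hU, hW]
  have X0 : X ≠ 0 := by
    rw [hX]
    exact nK _ x0
  have ebG : b * G = W * X := by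
    rw [eb, hG, hW, hX, div_mul_cancel₀ _ (nK _ g0), map_mul]
  have eqn : (U * X) ^ 2 + (1 - b) * X * (U * X) - b * (U * X) = X ^ 3 - b * X ^ 2 := by
    rw [eG] at ebG
    rw [eX] at ebG ⊢
    linear_combination -(U ^ 2 + U - W) * ebG
  have hns : ((crv5 b).baseChange K).toAffine.Nonsingular X (U * X) := hK.nonsingular.2 (by
    show (U * X) ^ 2 + (1 - b) * X * (U * X) - b * (U * X) = X ^ 3 - b * X ^ 2
    exact eqn)
  obtain ⟨Q, hQ⟩ : ∃ Q : Pt (crv5 b) K, Q = Point.some X (U * X) hns := ⟨_, rfl⟩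
  -- the value of the descent function
  have hdQ : dd (algebraMap K F b) (act (crv5 b) (incl K K F) Q) =
      algebraMap K F (algebraMap k[X] K (wx u w)) * algebraMap K F (algebraMap k[X] K (wg u w)) := by
    rw [dd_act, hQ]
    have h1 : dd (algebraMap K K b) (Point.some X (U * X) hns) = X * G := by
      rw [dd_some, vl5_of_ne _ X0]
      unfold ff5
      rw [eG]
      rw [eX]
      ring
    rw [h1, ← map_mul, hX, hG]
    rfl
  have omb : ∀ v : HeightOneSpectrum k'[X], om5 v (dd (algebraMap K F b) (pP hF)) =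
      om5 v (algebraMap K F (algebraMap k[X] K (wg u w))) -
        (om5 v (algebraMap K F (algebraMap k[X] K w)) +
          om5 v (algebraMap K F (algebraMap k[X] K (wx u w)))) := by
    intro v
    rw [dd_P, eb, map_div₀, inv_div, om5_div v (nF _ g0) (nF _ (mul_ne_zero w0 x0)), map_mul,
      map_mul, om5_mul v (nF _ w0) (nF _ x0)]
  have hind : ∀ (l0 l1 : ℕ) (R : Pt (crv5 b) F),
      5 • R = l0 • pP hF + l1 • act (crv5 b) (incl K K F) Q → 5 ∣ l0 ∧ 5 ∣ l1 := by
    intro l0 l1 R hR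
    have h0 : ∀ v : HeightOneSpectrum k'[X], (l0 : ZMod 5) *
        om5 v (dd (algebraMap K F b) (pP hF)) +
          (l1 : ZMod 5) * (om5 v (algebraMap K F (algebraMap k[X] K (wx u w))) +
            om5 v (algebraMap K F (algebraMap k[X] K (wg u w)))) = 0 := by
      intro v
      have h1 := om_dd hF ![pP hF, act (crv5 b) (incl K K F) Q] ![l0, l1] R
        (by rw [hR, Fin.sum_univ_two]; rfl) v
      rw [Fin.sum_univ_two] at h1
      rw [← om5_mul v (nF _ x0) (nF _ g0), ← hdQ]
      exact h1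
    obtain ⟨v1, a1, a2, a3⟩ := place2 hKF i1 i1.separable x0 g0 c12 c13
    obtain ⟨v2, b1, b2, b3⟩ := place2 hKF i2 i2.separable w0 g0 c12.symm c23
    have h1 := h0 v1
    rw [omb, a1, a2, a3] at h1
    have h2 : (l0 : ZMod 5) = 0 := by linear_combination -h1
    have h3 := h0 v2
    rw [h2, b1, b3] at h3
    have h4 : (l1 : ZMod 5) = 0 := by linear_combination h3
    exact ⟨(ZMod.natCast_eq_zero_iff _ _).1 h2, (ZMod.natCast_eq_zero_iff _ _).1 h4⟩
  have hW0 : crvW K u w = crv5 b := by rw [crvW, crvQ, eb]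
  rw [TateW, hW0]
  refine ⟨tate_crit hT h5k hz0 hC eb (N := 2) ![pP hK, Q] ?_ hN, Q, ⟨?_, ?_⟩, ?_⟩
  · intro l R hR
    rw [Fin.sum_univ_two] at hR
    obtain ⟨h1, h2⟩ := hind (l 0) (l 1) R (by
      rw [hR, ← pP_act hK hF (incl K K F)]
      rfl)
    intro j
    fin_cases j
    · exact h1
    · exact h2
  · rw [map_mul, ← hX, ← hU]
    exact hns
  · subst hU hX
    rw [hQ]
    congr 1
    rw [map_mul]
  · have h1 := inf_of_ind hind (fun S hS => htor hF S hS) (five_pP hF)
    intro n hn h0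
    apply h1 n hn
    rw [← map_nsmul, h0, map_zero]

end mid

end Pool.Agent.Helper70K9.R5
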