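import Pool.Agent.Helper70K9.R5.Alg
import Pool.Agent.Helper70K9.F5.Cov
import Pool.Agent.Helper70K9.F5.Den

/-!
# The covers of the curves with a point of order five and one more point
-/

set_option autoImplicit false
set_option linter.all false

open Polynomial WeierstrassCurve WeierstrassCurve.Affine
open scoped Classical IntermediateField

namespace Pool.Agent.Helper70K9.R5

open Pool.Agent.TH115.GD (Pt act incl IsTower)
open Pool.Agent.Helper7K9.T3 (TateAt)
open Pool.Agent.Helper70K9.TN Pool.Agent.Helper23K9.T5 Pool.Agent.Helper70K9.F5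

/-- For the curve `y² + (1 - b) x y - b y = x³ - b x²` with `b = w (u² + u - w) / (u³ - (u - 1) w)` and
the point `(x, u x)`, `x = u² + u - w`: the Tate conjecture at 5 holds for the pullback by `t ↦ h(t)`
and the pullback of the point has infinite order, for all polynomials `h` of degree prime to ten such
that `w(h)`, `(u² + u - w)(h)`, `(u³ - (u - 1) w)(h)` are irreducible over `k` and
`(w (u² + u - w) - e (u³ - (u - 1) w))(h)` is irreducible over `k(e)` for the roots `e` of
`X² - 11 X - 1`; and for all `h = tᴹ` with `M` prime to some `N ≠ 0`. -/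
def RankCovers5 (k' K F : Type) {k : Type} [Field k] [Field k'] [Algebra k k'] [Field K]
    [Algebra k[X] K] [Field F] [Algebra k'[X] F] [IsFractionRing k'[X] F] [Algebra K F]
    (u w : k[X]) : Prop :=
  (∀ h : k[X], Nat.Coprime h.natDegree 10 → Irreducible (w.comp h) →
    Irreducible ((wx u w).comp h) → Irreducible ((wg u w).comp h) →
    (∀ e : k', e ^ 2 - 11 * e - 1 = 0 →
      Irreducible (tw5 e ((w * wx u w).comp h) ((wg u w).comp h))) →
      TateW k' K F (u.comp h) (w.comp h)) ∧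
  ∃ N : ℕ, N ≠ 0 ∧ ∀ M : ℕ, Nat.Coprime M N → TateW k' K F (u.comp (X ^ M)) (w.comp (X ^ M))

section pair

variable {k : Type} [Field k] [CharZero k]

theorem pairOK_of {p q π r : k[X]} (hc : IsCoprime p q) (hp : p ≠ 0) (hq : q ≠ 0)
    (hπ : Irreducible π) (h5 : ¬ 5 ∣ π.natDegree) (hr : p * q = π * r) (hcr : IsCoprime π r) :
    PairOK p q := by
  refine ⟨hc, hp, hq, fun π hπ _ => hπ.separable, ⟨π, 1, hπ, h5, by norm_num, ?_, ?_⟩⟩
  · rw [pow_one, hr]
    exact dvd_mul_right π r
  · rw [pow_succ, pow_one, hr, mul_dvd_mul_iff_left hπ.ne_zero]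
    intro h
    exact hπ.not_isUnit (hcr.isUnit_of_dvd' dvd_rfl h)

theorem nPl_three {a b c : k[X]} (ha : Irreducible a) (hb : Irreducible b) (hc : Irreducible c)
    (hd : (a * b).natDegree = c.natDegree) : nPl (a * b) c ≤ 3 := by
  unfold nPl irr
  rw [if_pos hd, add_zero]
  refine (Multiset.toFinset_card_le _).trans ?_
  rw [UniqueFactorizationMonoid.normalizedFactors_mul (mul_ne_zero ha.ne_zero hb.ne_zero) hc.ne_zero,
    UniqueFactorizationMonoid.normalizedFactors_mul ha.ne_zero hb.ne_zero,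
    UniqueFactorizationMonoid.normalizedFactors_irreducible ha,
    UniqueFactorizationMonoid.normalizedFactors_irreducible hb,
    UniqueFactorizationMonoid.normalizedFactors_irreducible hc]
  simp

omit [CharZero k] in
theorem cop_deg {a b : k[X]} (ha : Irreducible a) (hb : Irreducible b)
    (h : a.natDegree ≠ b.natDegree) : IsCoprime a b := by
  rw [ha.coprime_iff_not_dvd]
  intro hd
  exact h (natDegree_eq_of_degree_eq (degree_eq_degree_of_associated
    (ha.associated_of_dvd hb hd)))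

end pair

section main

variable {k k' K F : Type} [Field k] [CharZero k] [Field k'] [Algebra k k'] [Field K]
    [Algebra k[X] K] [Field F] [Algebra k'[X] F] [IsFractionRing k'[X] F] [Algebra K F]

/-- The conditions on `u`, `w`. -/
structure Gen5W (k' : Type) [Field k'] [Algebra k k'] (d : ℕ) (u w : k[X]) : Prop where
  dpos : d ≠ 0
  five : ¬ 5 ∣ d
  w1 : Irreducible w
  w2 : NoSub 2 w
  w3 : w.natDegree = d
  x1 : Irreducible (wx u w)
  x2 : NoSub 2 (wx u w)
  x3 : (wx u w).natDegree = 2 * d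
  g1 : Irreducible (wg u w)
  g2 : NoSub 2 (wg u w)
  g3 : (wg u w).natDegree = 3 * d
  e1 : ∀ e : k', e ^ 2 - 11 * e - 1 = 0 → Irreducible (tw5 e (w * wx u w) (wg u w))
  e2 : ∀ e : k', e ^ 2 - 11 * e - 1 = 0 → NoSub 2 (tw5 e (w * wx u w) (wg u w))
  e3 : ∀ e : k', e ^ 2 - 11 * e - 1 = 0 → (tw5 e (w * wx u w) (wg u w)).natDegree = 3 * d

omit [CharZero k] in
theorem wx_comp (u w h : k[X]) : wx (u.comp h) (w.comp h) = (wx u w).comp h := by
  simp only [wx, sub_comp, add_comp, pow_comp]

omit [CharZero k] in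
theorem wg_comp (u w h : k[X]) : wg (u.comp h) (w.comp h) = (wg u w).comp h := by
  simp only [wg, sub_comp, mul_comp, pow_comp, one_comp]

/-- **The Tate conjecture at 5 and a point of infinite order for the covers.** -/
theorem cover_w (hT : IsTower k k' K F) {d : ℕ} {u w h : k[X]} (H : Gen5W k' d u w)
    (hh : Nat.Coprime h.natDegree 10) (hw : Irreducible (w.comp h))
    (hx : Irreducible ((wx u w).comp h)) (hg : Irreducible ((wg u w).comp h))
    (heh : ∀ e : k', e ^ 2 - 11 * e - 1 = 0 →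
      Irreducible (tw5 e ((w * wx u w).comp h) ((wg u w).comp h))) :
    TateW k' K F (u.comp h) (w.comp h) := by
  haveI := hT.sep
  haveI : Fact (Nat.Prime 5) := ⟨by norm_num⟩
  obtain ⟨z, hz⟩ := exists_isZ (k := k) (k' := k')
  have h5k : (5 : k) ≠ 0 := by norm_num
  have hodd : Odd h.natDegree := by
    rw [← Nat.coprime_two_right]
    exact Nat.Coprime.coprime_dvd_right (by norm_num) hh
  have hpos : 0 < h.natDegree := hodd.pos
  have hh5 : ¬ 5 ∣ h.natDegree := by
    intro h6
    have h7 : 5 ∣ Nat.gcd h.natDegree 10 := Nat.dvd_gcd h6 (by norm_num)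
    rw [hh] at h7
    norm_num at h7
  have hdpos : 0 < d := Nat.pos_of_ne_zero H.dpos
  haveI : CharZero k⟮z⟯ := charZero_of_injective_algebraMap (algebraMap k k⟮z⟯).injective
  set z1 : k⟮z⟯ := IntermediateField.AdjoinSimple.gen k z with hz1
  have hz1c : (algebraMap k⟮z⟯ k') z1 = z := IntermediateField.AdjoinSimple.algebraMap_gen k z
  have hZ1 : IsZ z1 := by
    apply (algebraMap k⟮z⟯ k').injective
    simp only [map_add, map_pow, map_one, map_zero, hz1c]
    exact hz
  have hep : (algebraMap k⟮z⟯ k') (ep z1) = ep z := by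
    simp only [ep, Pool.Agent.Helper23K9.T5.eta, map_add, map_mul, map_pow, map_ofNat, hz1c]
  have hep' : (algebraMap k⟮z⟯ k') (ep' z1) = ep' z := by
    simp only [ep', Pool.Agent.Helper23K9.T5.eta', map_add, map_mul, map_pow, map_ofNat, hz1c]
  set β := w * wx u w with hβ
  set γ := wg u w with hγ
  have hβh : β.comp h = w.comp h * (wx u w).comp h := by rw [hβ, mul_comp]
  set w1 := (w.comp h).map (algebraMap k k⟮z⟯) with hw1
  set x1 := ((wx u w).comp h).map (algebraMap k k⟮z⟯) with hx1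
  set β1 := (β.comp h).map (algebraMap k k⟮z⟯) with hβ1
  set γ1 := (γ.comp h).map (algebraMap k k⟮z⟯) with hγ1
  have eβ1 : β1 = w1 * x1 := by rw [hβ1, hβh, Polynomial.map_mul]
  have iw : Irreducible w1 := irr_base h5k hz H.w1 H.w1.separable H.w2 hw hw.separable hodd
  have ix : Irreducible x1 := irr_base h5k hz H.x1 H.x1.separable H.x2 hx hx.separable hodd
  have i2 : Irreducible γ1 := irr_base h5k hz H.g1 H.g1.separable H.g2 hg hg.separable hodd
  have hdc : ∀ f : k[X], ((f.comp h).map (algebraMap k k⟮z⟯)).natDegree =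
      f.natDegree * h.natDegree := by
    intro f
    rw [natDegree_map, natDegree_comp]
  have dw : w1.natDegree = d * h.natDegree := by rw [hw1, hdc, H.w3]
  have dx : x1.natDegree = 2 * d * h.natDegree := by rw [hx1, hdc, H.x3]
  have dg : γ1.natDegree = 3 * d * h.natDegree := by rw [hγ1, hdc, H.g3]
  have hdn : 0 < d * h.natDegree := Nat.mul_pos hdpos hpos
  have c12 : IsCoprime w1 x1 := cop_deg iw ix (by rw [dw, dx, mul_assoc]; omega)
  have c13 : IsCoprime w1 γ1 := cop_deg iw i2 (by rw [dw, dg, mul_assoc]; omega)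
  have c23 : IsCoprime x1 γ1 := cop_deg ix i2 (by rw [dx, dg, mul_assoc, mul_assoc]; omega)
  have key : ∀ (e : k') (e1 : k⟮z⟯), e ^ 2 - 11 * e - 1 = 0 → (algebraMap k⟮z⟯ k') e1 = e →
      Irreducible (β1 - C e1 * γ1) ∧ (β1 - C e1 * γ1).natDegree = 3 * d * h.natDegree := by
    intro e e1 he hee
    haveI := sepClosure_adjoin (k := k) e
    haveI : CharZero k⟮e⟯ := charZero_of_injective_algebraMap (algebraMap k k⟮e⟯).injective
    have hem : e ∈ k⟮z⟯ := by
      rw [← hee]
      exact e1.2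
    have h1 := H.e1 e he
    have h2 := H.e2 e he
    have h3 := heh e he
    rw [tw5_comp] at h3
    have hd' : (h.map (algebraMap k k⟮e⟯)).natDegree = h.natDegree := natDegree_map _
    have h4 := irr_base (k := k⟮e⟯) (by norm_num) hz h1 h1.separable h2 h3 h3.separable
      (by rw [hd']; exact hodd)
    have hmap : (β1 - C e1 * γ1).map (algebraMap k⟮z⟯ k') =
        ((tw5 e β γ).comp (h.map (algebraMap k k⟮e⟯))).map (algebraMap k⟮e⟯ k') := by
      rw [← tw5_comp, tw5_map, Polynomial.map_sub, Polynomial.map_mul, map_C, hee, hβ1, hγ1,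
        Polynomial.map_map, Polynomial.map_map]
      rfl
    refine ⟨transfer hem h4 hmap, ?_⟩
    rw [← natDegree_map (algebraMap k⟮z⟯ k'), hmap, natDegree_map, natDegree_comp, H.e3 e he, hd']
  obtain ⟨a1, a2⟩ := key (ep z) (ep z1) (ep_root hz) hep
  obtain ⟨b1, b2⟩ := key (ep' z) (ep' z1) (ep_root' hz) hep'
  have hcop : IsCoprime β1 γ1 := by
    rw [eβ1]
    exact c13.mul_left c23
  have h5d : ¬ 5 ∣ d * h.natDegree := by
    rw [Nat.Prime.dvd_mul (by norm_num)]
    rintro (h6 | h6)
    · exact H.five h6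
    · exact hh5 h6
  have h5d3 : ¬ 5 ∣ 3 * d * h.natDegree := by
    rw [mul_assoc, Nat.Prime.dvd_mul (by norm_num)]
    rintro (h6 | h6)
    · norm_num at h6
    · exact h5d h6
  have hne : ep z1 - ep' z1 ≠ 0 := by
    intro h6
    have h7 := ep_add hZ1
    have h8 := ep_mul hZ1
    have h9 : (125 : k⟮z⟯) = 0 := by
      have h10 : ep z1 = ep' z1 := sub_eq_zero.1 h6
      rw [h10] at h7 h8
      linear_combination (-(2 * ep' z1) - 11) * h7 + 4 * h8
    norm_num at h9
  have hcop2 : IsCoprime (β1 - C (ep z1) * γ1) (β1 - C (ep' z1) * γ1) := by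
    obtain ⟨u, v, huv⟩ := hcop
    set d := ep z1 - ep' z1 with hd
    have hdd : C d⁻¹ * C d = (1 : (k⟮z⟯)[X]) := by
      rw [← C_mul, inv_mul_cancel₀ hne, C_1]
    have hCd : C d = C (ep z1) - C (ep' z1) := by rw [hd, C_sub]
    refine ⟨-(C d⁻¹ * (u * C (ep' z1) + v)), C d⁻¹ * (u * C (ep z1) + v), ?_⟩
    linear_combination (u * β1 + v * γ1) * hdd - (C d⁻¹ * (u * β1 + v * γ1)) * hCd + huv
  have hC : Crit5 z1 β1 γ1 := by
    refine ⟨pairOK_of (π := w1) (r := x1 * γ1) hcop ?_ i2.ne_zero iw ?_ ?_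
      (c12.mul_right c13), pairOK_irr a1 b1 hcop2 ?_⟩
    · rw [eβ1]
      exact mul_ne_zero iw.ne_zero ix.ne_zero
    · rw [dw]
      exact h5d
    · rw [eβ1, mul_assoc]
    · rw [a2]
      exact h5d3
  have hN : nn5 z1 β1 γ1 ≤ 5 := by
    unfold nn5
    have n1 : nPl β1 γ1 ≤ 3 := by
      rw [eβ1]
      refine nPl_three iw ix i2 ?_
      rw [natDegree_mul iw.ne_zero ix.ne_zero, dw, dx, dg]
      ring
    have n2 := nPl_irr a1 b1 (by rw [a2, b2])
    omega
  have eb : w.comp h * wx (u.comp h) (w.comp h) = β.comp h := by rw [wx_comp, hβh]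
  have eg : wg (u.comp h) (w.comp h) = γ.comp h := wg_comp u w h
  have dd1 : ∀ f : k[X], (f.comp h).natDegree = f.natDegree * h.natDegree := fun f => natDegree_comp
  refine tate_w (k1 := k⟮z⟯) hT hZ1 hw (by rw [wx_comp]; exact hx) (by rw [eg]; exact hg) ?_ ?_ ?_
    (by rw [eb, eg]; exact hC) (by rw [eb, eg]; exact hN)
  · rw [wx_comp]
    exact cop_deg hw hx (by rw [dd1, dd1, H.w3, H.x3, mul_assoc]; omega)
  · rw [eg]
    exact cop_deg hw hg (by rw [dd1, dd1, H.w3, H.g3, mul_assoc]; omega)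
  · rw [wx_comp, eg]
    exact cop_deg hx hg (by rw [dd1, dd1, H.x3, H.g3, mul_assoc, mul_assoc]; omega)

end main

end Pool.Agent.Helper70K9.R5
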