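import Pool.Agent.Helper70K9.R5.Ee
import Pool.Agent.Helper70K9.R5.Cov

/-!
# Almost all curves with a point of order five and one more point, and their covers
-/

set_option autoImplicit false
set_option linter.all false

open Polynomial
open scoped IntermediateField

namespace Pool.Agent.Helper70K9.R5

open NumberField Pool.Agent.R939.EI Pool.Agent.R939.HI Pool.Agent.W275.UB
open Pool.Agent.R939.KM Pool.Agent.R939.PP Pool.Agent.Helper70K9.TN Pool.Agent.Helper70K9.F5
open Pool.Agent.TH115.GD (IsTower)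
open Pool.Agent.Helper7K9.T3 (TateAt)

section pow

variable {κ : Type} [Field κ] [NumberField κ]

/-- powers of `t` -/
theorem pow_of {m : ℕ} {f : κ[X]} (H : GoodC m f) : ∃ N : ℕ, N ≠ 0 ∧
    ∀ M : ℕ, Odd M → Nat.Coprime M N → Irreducible (f.comp (X ^ M)) := by
  obtain ⟨N, h1, h2⟩ := no_power_all H.irr.ne_zero H.cop
  refine ⟨N, h1, fun M hodd hM => ?_⟩
  refine irr_pow H.irr hodd fun ℓ hℓ hℓM => h2 ℓ hℓ ?_ f H.irr dvd_rfl
  intro hℓN
  exact Nat.not_coprime_of_dvd_of_dvd hℓ.one_lt hℓM hℓN hM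

end pow

section main

variable {k k' K F : Type} [Field k] [Field k'] [Algebra k k'] [Field K]
    [Algebra k[X] K] [Field F] [Algebra k'[X] F] [IsFractionRing k'[X] F] [Algebra K F]

/-- **All covers for good parameters.** -/
theorem covers_w [NumberField k] (hT : IsTower k k' K F) {d : ℕ} (h3 : 3 ≤ d) (h5 : ¬ 5 ∣ d)
    {u w : k[X]} (H : AllW k' d u w) : RankCovers5 k' K F u w := by
  haveI := hT.sep
  haveI : IsSepClosed k' := IsSepClosure.sep_closed k
  have hG : Gen5W k' d u w :=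
    { dpos := by omega
      five := h5
      w1 := H.cw.irr
      w2 := H.cw.sub
      w3 := H.cw.deg
      x1 := H.cx.irr
      x2 := H.cx.sub
      x3 := H.cx.deg
      g1 := H.cg.irr
      g2 := H.cg.sub
      g3 := H.cg.deg
      e1 := fun e he => (H.ce e he).irr
      e2 := fun e he => (H.ce e he).sub
      e3 := fun e he => (H.ce e he).deg }
  refine ⟨fun h hh hw hx hg he => cover_w hT hG hh hw hx hg he, ?_⟩
  obtain ⟨N1, a1, b1⟩ := pow_of H.cw
  obtain ⟨N2, a2, b2⟩ := pow_of H.cx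
  obtain ⟨N3, a3, b3⟩ := pow_of H.cg
  -- one number for each root
  have hE : ∀ e : k', ∃ N : ℕ, N ≠ 0 ∧ ∀ M : ℕ, Odd M → Nat.Coprime M N →
      e ^ 2 - 11 * e - 1 = 0 →
        Irreducible (tw5 e ((w * wx u w).comp (X ^ M)) ((wg u w).comp (X ^ M))) := by
    intro e
    by_cases he : e ^ 2 - 11 * e - 1 = 0
    · have hint : IsIntegral k e := Algebra.IsIntegral.isIntegral e
      haveI : FiniteDimensional k k⟮e⟯ := IntermediateField.adjoin.finiteDimensional hint
      haveI : CharZero k⟮e⟯ := charZero_of_injective_algebraMap (algebraMap k k⟮e⟯).injective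
      haveI : IsScalarTower ℚ k k⟮e⟯ := IsScalarTower.of_algebraMap_eq fun q => by simp
      haveI : FiniteDimensional ℚ k⟮e⟯ := FiniteDimensional.trans ℚ k k⟮e⟯
      haveI : NumberField k⟮e⟯ :=
        { to_charZero := inferInstance, to_finiteDimensional := inferInstance }
      obtain ⟨N, a, b⟩ := pow_of (H.ce e he)
      refine ⟨N, a, fun M hodd hM _ => ?_⟩
      rw [tw5_comp, Polynomial.map_pow, map_X]
      exact b M hodd hM
    · exact ⟨1, one_ne_zero, fun M _ _ he' => (he he').elim⟩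
  have h4 : ∃ e1 e2 : k', ∀ e : k', e ^ 2 - 11 * e - 1 = 0 → e = e1 ∨ e = e2 := by
    by_cases h : ∃ e : k', e ^ 2 - 11 * e - 1 = 0
    · obtain ⟨e1, h1⟩ := h
      refine ⟨e1, 11 - e1, fun e he => ?_⟩
      have h5 : (e - e1) * (e - (11 - e1)) = 0 := by linear_combination he - h1
      rcases mul_eq_zero.1 h5 with h6 | h6
      · exact Or.inl (sub_eq_zero.1 h6)
      · exact Or.inr (sub_eq_zero.1 h6)
    · exact ⟨0, 0, fun e he => (h ⟨e, he⟩).elim⟩
  obtain ⟨e1, e2, h4⟩ := h4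
  obtain ⟨N4, a4, b4⟩ := hE e1
  obtain ⟨N5, a5, b5⟩ := hE e2
  refine ⟨10 * (N1 * (N2 * (N3 * (N4 * N5)))), by positivity, fun M hM => ?_⟩
  have hM10 : Nat.Coprime M 10 := hM.coprime_mul_right_right
  have m0 : Nat.Coprime M (N1 * (N2 * (N3 * (N4 * N5)))) := hM.coprime_mul_left_right
  have m1 : Nat.Coprime M N1 := m0.coprime_mul_right_right
  have m0' : Nat.Coprime M (N2 * (N3 * (N4 * N5))) := m0.coprime_mul_left_right
  have m2 : Nat.Coprime M N2 := m0'.coprime_mul_right_right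
  have m0'' : Nat.Coprime M (N3 * (N4 * N5)) := m0'.coprime_mul_left_right
  have m3 : Nat.Coprime M N3 := m0''.coprime_mul_right_right
  have m0''' : Nat.Coprime M (N4 * N5) := m0''.coprime_mul_left_right
  have m4 : Nat.Coprime M N4 := m0'''.coprime_mul_right_right
  have m5 : Nat.Coprime M N5 := m0'''.coprime_mul_left_right
  have hM2 : Nat.Coprime M 2 := Nat.Coprime.coprime_dvd_right (by norm_num) hM10
  have hodd : Odd M := Nat.coprime_two_right.1 hM2
  refine cover_w hT hG (h := X ^ M) ?_ (b1 M hodd m1) (b2 M hodd m2) (b3 M hodd m3) ?_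
  · rw [natDegree_X_pow]
    exact hM10
  · intro e he
    rcases h4 e he with h | h
    · rw [h]
      exact b4 M hodd m4 (h ▸ he)
    · rw [h]
      exact b5 M hodd m5 (h ▸ he)

/-- **Almost all curves and all their covers.** -/
theorem almost_w [NumberField k] (hT : IsTower k k' K F) {J : Type} [Fintype J]
    (B : Module.Basis J ℤ (𝓞 k)) {d : ℕ} (hd : 3 ≤ d) (h5 : ¬ 5 ∣ d) {η : ℝ} (hη : 0 < η) :
    ∃ H0 : ℕ, ∀ H : ℕ, H0 ≤ H →
    (({x : (Fin (d + 1) → 𝓞 k) × (Fin (d + 1) → 𝓞 k) |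
      ((∀ j t, |B.repr (x.1 j) t| ≤ (H : ℤ)) ∧ ∀ j t, |B.repr (x.2 j) t| ≤ (H : ℤ)) ∧
      ¬ RankCovers5 k' K F (polA fun j => algebraMap (𝓞 k) k (x.1 j))
        (polA fun j => algebraMap (𝓞 k) k (x.2 j))}.ncard : ℕ) : ℝ) ≤
      η * (2 * H + 1) ^ (Fintype.card J * (2 * (d + 1))) := by
  classical
  haveI := hT.sep
  obtain ⟨H0, hH⟩ := dens_allW (k' := k') (d := d) B hd η hη
  refine ⟨H0, fun H hHH => ?_⟩
  have h1 := hH H hHH
  have hcard : Fintype.card (I2 d × J) = Fintype.card J * (2 * (d + 1)) := by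
    rw [Fintype.card_prod, Fintype.card_sum, Fintype.card_fin]
    ring
  rw [hcard] at h1
  refine le_trans ?_ h1
  let φ : ((Fin (d + 1) → 𝓞 k) × (Fin (d + 1) → 𝓞 k)) → (I2 d × J → ℤ) := fun y o =>
    B.repr ((Sum.elim y.1 y.2 : I2 d → 𝓞 k) o.1) o.2
  have hkv : ∀ y (o : I2 d), kv B (φ y) o =
      algebraMap (𝓞 k) k ((Sum.elim y.1 y.2 : I2 d → 𝓞 k) o) := by
    intro y o
    show algebraMap (𝓞 k) k (elt B fun j =>
      B.repr ((Sum.elim y.1 y.2 : I2 d → 𝓞 k) o) j) = _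
    rw [← basis_elt B]
  have hinj : Function.Injective φ := by
    intro y z hyz
    have h3 : ∀ o : I2 d, (Sum.elim y.1 y.2 : I2 d → 𝓞 k) o = Sum.elim z.1 z.2 o := by
      intro o
      apply FaithfulSMul.algebraMap_injective (𝓞 k) k
      rw [← hkv, ← hkv, hyz]
    refine Prod.ext ?_ ?_
    · funext j
      exact h3 (Sum.inl j)
    · funext j
      exact h3 (Sum.inr j)
  have h4 : (Set.ncard {x : (Fin (d + 1) → 𝓞 k) × (Fin (d + 1) → 𝓞 k) |
      ((∀ j t, |B.repr (x.1 j) t| ≤ (H : ℤ)) ∧ ∀ j t, |B.repr (x.2 j) t| ≤ (H : ℤ)) ∧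
      ¬ RankCovers5 k' K F (polA fun j => algebraMap (𝓞 k) k (x.1 j))
        (polA fun j => algebraMap (𝓞 k) k (x.2 j))}) ≤
      Set.ncard {v : I2 d × J → ℤ | v ∈ {x : I2 d × J → ℤ | ¬ AllW k' d
        (polA fun j => kv B x (Sum.inl j)) (polA fun j => kv B x (Sum.inr j))} ∧
          ∀ i, |v i| ≤ (H : ℤ)} := by
    rw [← Set.ncard_image_of_injective _ hinj]
    refine Set.ncard_le_ncard ?_ (box_fin _ H)
    rintro _ ⟨y, ⟨⟨b1, b2⟩, hbad⟩, rfl⟩
    have ea : (fun j => kv B (φ y) (Sum.inl j)) = fun j => algebraMap (𝓞 k) k (y.1 j) := by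
      funext j
      exact hkv y (Sum.inl j)
    have eb : (fun j => kv B (φ y) (Sum.inr j)) = fun j => algebraMap (𝓞 k) k (y.2 j) := by
      funext j
      exact hkv y (Sum.inr j)
    refine ⟨?_, ?_⟩
    · rw [Set.mem_setOf_eq, ea, eb]
      exact fun hall => hbad (covers_w hT hd h5 hall)
    · rintro ⟨j | j, t⟩
      · exact b1 j t
      · exact b2 j t
  exact_mod_cast h4

end main

end Pool.Agent.Helper70K9.R5
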