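import Pool.Agent.Helper70K9.R5.Loc
import Pool.Agent.Helper70K9.R5.Alg
import Pool.Agent.Helper70K9.F5.Par
import Pool.Agent.Helper70K9.TN.Rk2

/-!
# Densities of the conditions on `u`, `w`
-/

set_option autoImplicit false
set_option linter.all false

namespace Pool.Agent.Helper70K9.R5

open Polynomial NumberField Pool.Agent.R939.EI Pool.Agent.R939.HI Pool.Agent.W275.UB
open Pool.Agent.R939.KM Pool.Agent.R939.PP Pool.Agent.Helper70K9.TN Pool.Agent.Helper70K9.F5

section maps

variable {R S : Type} [CommRing R] [CommRing S]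

theorem wx_map (φ : R →+* S) (u w : R[X]) : (wx u w).map φ = wx (u.map φ) (w.map φ) := by
  unfold wx
  rw [Polynomial.map_sub, Polynomial.map_add, Polynomial.map_pow]

theorem wg_map (φ : R →+* S) (u w : R[X]) : (wg u w).map φ = wg (u.map φ) (w.map φ) := by
  unfold wg
  rw [Polynomial.map_sub, Polynomial.map_pow, Polynomial.map_mul, Polynomial.map_sub,
    Polynomial.map_one]

theorem wx_deg {d : ℕ} {u w : R[X]} (hu : u.natDegree ≤ d) (hw : w.natDegree ≤ d) :
    (wx u w).natDegree ≤ 2 * d := by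
  unfold wx
  refine (natDegree_sub_le _ _).trans (max_le ((natDegree_add_le _ _).trans (max_le ?_ ?_)) ?_)
  · exact natDegree_pow_le.trans (Nat.mul_le_mul_left _ hu)
  · omega
  · omega

theorem wg_deg {d : ℕ} {u w : R[X]} (hu : u.natDegree ≤ d) (hw : w.natDegree ≤ d) :
    (wg u w).natDegree ≤ 3 * d := by
  unfold wg
  refine (natDegree_sub_le _ _).trans (max_le ?_ ?_)
  · exact natDegree_pow_le.trans (Nat.mul_le_mul_left _ hu)
  · refine natDegree_mul_le.trans ?_
    have h1 : (u - 1).natDegree ≤ d :=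
      (natDegree_sub_le _ _).trans (max_le hu (by rw [natDegree_one]; exact Nat.zero_le _))
    omega

theorem wb_deg {d : ℕ} {u w : R[X]} (hu : u.natDegree ≤ d) (hw : w.natDegree ≤ d) :
    (w * wx u w).natDegree ≤ 3 * d := by
  refine natDegree_mul_le.trans ?_
  have := wx_deg hu hw
  omega

end maps

/-- The generic `u`. -/
noncomputable def uu (d : ℕ) : (MvPolynomial (I2 d) ℤ)[X] :=
  polA fun j => (MvPolynomial.X (Sum.inl j) : MvPolynomial (I2 d) ℤ)

/-- The generic `w`. -/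
noncomputable def ww (d : ℕ) : (MvPolynomial (I2 d) ℤ)[X] :=
  polA fun j => (MvPolynomial.X (Sum.inr j) : MvPolynomial (I2 d) ℤ)

section gen

variable {R : Type} [CommRing R] {d : ℕ}

theorem uu_map (v : I2 d → R) : (uu d).map (av v) = polA fun j => v (Sum.inl j) := by
  unfold uu
  rw [polA_map]
  simp only [av_X]

theorem ww_map (v : I2 d → R) : (ww d).map (av v) = polA fun j => v (Sum.inr j) := by
  unfold ww
  rw [polA_map]
  simp only [av_X]

theorem uu_deg : (uu d).natDegree ≤ d := polA_natDegree _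

theorem ww_deg : (ww d).natDegree ≤ d := polA_natDegree _

/-- the vectors of coefficients of `X ^ d` and of `f` -/
theorem vec (hd : 1 ≤ d) (f : Fin (d + 1) → ℤ) :
    (uu d).map (av (Sum.elim (Pi.single (Fin.last d) (1 : ℤ)) f : I2 d → ℤ)) = X ^ d ∧
      (ww d).map (av (Sum.elim (Pi.single (Fin.last d) (1 : ℤ)) f : I2 d → ℤ)) = polA f := by
  refine ⟨?_, ?_⟩
  · rw [uu_map]
    show polA (Pi.single (Fin.last d) (1 : ℤ)) = _
    rw [polA_single, Fin.val_last, C_1, one_mul]
  · rw [ww_map]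
    rfl

theorem one_val (hd : 2 ≤ d) : ((1 : Fin (d + 1)) : ℕ) = 1 := by
  rw [Fin.val_one']
  exact Nat.mod_eq_of_lt (by omega)

/-- targets for `x` -/
theorem tx0 (hd : 1 ≤ d) (p : ℤ) : ∃ a : I2 d → ℤ,
    (wx (uu d) (ww d)).map (av a) = X ^ (2 * d) + C p := by
  refine ⟨Sum.elim (Pi.single (Fin.last d) (1 : ℤ)) (Pi.single (Fin.last d) 1 +
    Pi.single 0 (-p)), ?_⟩
  obtain ⟨h1, h2⟩ := vec hd (Pi.single (Fin.last d) 1 + Pi.single 0 (-p) : Fin (d + 1) → ℤ)
  rw [wx_map, h1, h2, polA_add', polA_single, polA_single, Fin.val_last, Fin.val_zero, C_1, one_mul,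
    pow_zero, mul_one, C_neg]
  unfold wx
  ring

theorem tx1 (hd : 2 ≤ d) (p : ℤ) : ∃ a : I2 d → ℤ,
    (wx (uu d) (ww d)).map (av a) = X ^ (2 * d) + C p * X := by
  refine ⟨Sum.elim (Pi.single (Fin.last d) (1 : ℤ)) (Pi.single (Fin.last d) 1 +
    Pi.single 1 (-p)), ?_⟩
  obtain ⟨h1, h2⟩ := vec (by omega : 1 ≤ d)
    (Pi.single (Fin.last d) 1 + Pi.single 1 (-p) : Fin (d + 1) → ℤ)
  rw [wx_map, h1, h2, polA_add', polA_single, polA_single, Fin.val_last, one_val hd, C_1, one_mul,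
    pow_one, C_neg]
  unfold wx
  ring

/-- targets for `γ` -/
theorem tg0 (hd : 1 ≤ d) (p : ℤ) : ∃ a : I2 d → ℤ,
    (wg (uu d) (ww d)).map (av a) = X ^ (3 * d) - C p * X ^ d + C p ∧
    (ww d * wx (uu d) (ww d)).map (av a) = C p * (X ^ (2 * d) + X ^ d - C p) := by
  refine ⟨Sum.elim (Pi.single (Fin.last d) (1 : ℤ)) (Pi.single 0 p), ?_, ?_⟩
  · obtain ⟨h1, h2⟩ := vec hd (Pi.single 0 p : Fin (d + 1) → ℤ)
    rw [wg_map, h1, h2, polA_single, Fin.val_zero, pow_zero, mul_one]
    unfold wg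
    ring
  · obtain ⟨h1, h2⟩ := vec hd (Pi.single 0 p : Fin (d + 1) → ℤ)
    rw [Polynomial.map_mul, wx_map, h1, h2, polA_single, Fin.val_zero, pow_zero, mul_one]
    unfold wx
    ring

theorem tg1 (hd : 2 ≤ d) (p : ℤ) : ∃ a : I2 d → ℤ,
    (wg (uu d) (ww d)).map (av a) = X ^ (3 * d) - C p * X ^ (d + 1) + C p * X ∧
    (ww d * wx (uu d) (ww d)).map (av a) = C p * X * (X ^ (2 * d) + X ^ d - C p * X) := by
  refine ⟨Sum.elim (Pi.single (Fin.last d) (1 : ℤ)) (Pi.single 1 p), ?_, ?_⟩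
  · obtain ⟨h1, h2⟩ := vec (by omega : 1 ≤ d) (Pi.single 1 p : Fin (d + 1) → ℤ)
    rw [wg_map, h1, h2, polA_single, one_val hd, pow_one]
    unfold wg
    ring
  · obtain ⟨h1, h2⟩ := vec (by omega : 1 ≤ d) (Pi.single 1 p : Fin (d + 1) → ℤ)
    rw [Polynomial.map_mul, wx_map, h1, h2, polA_single, one_val hd, pow_one]
    unfold wx
    ring

end gen

section nf

variable {k : Type} [Field k] [NumberField k] {J : Type} [Fintype J] (B : Module.Basis J ℤ (𝓞 k))
  {d : ℕ}

/-- The conditions on one polynomial. -/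
structure GoodC {k : Type} [Field k] (m : ℕ) (f : k[X]) : Prop where
  irr : Irreducible f
  deg : f.natDegree = m
  sub : NoSub 2 f
  cop : ∀ n : ℕ, 0 < n → IsCoprime f (X * (X ^ n - 1))

/-- **The conditions on one polynomial, from two targets.** -/
theorem good_of {P : (MvPolynomial (I2 d) ℤ)[X]} {N : ℕ} (hN : 3 ≤ N) (hdeg : P.natDegree ≤ N)
    (t0 : ∀ p : ℤ, ∃ a : I2 d → ℤ, (P.map (av a)).coeff 0 = p ∧ (P.map (av a)).coeff N = 1 ∧
      ∀ j, j ≠ 0 → j ≠ N → p ∣ (P.map (av a)).coeff j)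
    (t1 : ∀ p : ℤ, ∃ a : I2 d → ℤ, (P.map (av a)).coeff 0 = 0 ∧ (P.map (av a)).coeff 1 = p ∧
      (P.map (av a)).coeff N = 1 ∧ ∀ j, j ≠ 0 → j ≠ 1 → j ≠ N → p ∣ (P.map (av a)).coeff j) :
    D0 {x : I2 d × J → ℤ | ¬ GoodC N (P.map (av (kv B x)))} := by
  have hc : P.coeff N ≠ 0 := by
    obtain ⟨a, -, h1, -⟩ := t0 5
    intro h
    rw [coeff_map, h, map_zero] at h1
    exact absurd h1 (by norm_num)
  have d1 : D0 (RootSq B P 0 (N - 1)) := by
    refine dens_eis (N := N) B (by omega) (by omega) hdeg ?_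
    intro p hp _ _
    obtain ⟨a, h1, h2, h3⟩ := t0 p
    refine ⟨a, 1, isCoprime_one_left, by rw [h1, mul_one], by rw [h2]; exact isCoprime_one_left, h3⟩
  have d2 := irr_dens B (by omega : 1 ≤ N) hdeg hc d1
  have d3 := noSub_dens B (e := 2) (by norm_num) hdeg hc fun h => by
    obtain ⟨c, hc'⟩ := h
    have hcm : N / 2 = c := by omega
    rw [hcm]
    refine dens_edge (N := N) B hN (by omega) ?_ hdeg ?_
    · intro e he1 he2
      have hg : Nat.gcd e (N - 1) = 1 := by
        interval_cases e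
        · exact Nat.gcd_one_left _
        · have h3 : Odd (N - 1) := ⟨c - 1, by omega⟩
          exact (Nat.coprime_two_left).2 h3
      rw [hg]
      omega
    · intro p hp _ _
      obtain ⟨a, h1, h2, h3, h4⟩ := t1 p
      refine ⟨a, 1, isCoprime_one_left, by rw [h2, mul_one], by rw [h1]; exact dvd_zero _,
        by rw [h3]; exact isCoprime_one_left, h4⟩
  have d4 := cop_dens B hdeg (by
    obtain ⟨a, h1, h2, h3⟩ := t0 5
    exact ⟨a, 1, isCoprime_one_left, by rw [h1, mul_one], by rw [h2]; exact isCoprime_one_left⟩)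
  intro ε hε
  refine (((d2.union d3).union d4) ε hε).mono ?_
  intro x hx
  by_contra hcon
  simp only [Set.mem_union, not_or] at hcon
  obtain ⟨⟨k1, k2⟩, k3⟩ := hcon
  obtain ⟨i1, i2⟩ := not_not.1 k1
  refine hx ⟨i1, i2, not_not.1 k2, ?_⟩
  by_contra h
  exact k3 ⟨i1, h⟩

theorem dens_x (hd : 2 ≤ d) : D0 {x : I2 d × J → ℤ |
    ¬ GoodC (2 * d) ((wx (uu d) (ww d)).map (av (kv B x)))} := by
  refine good_of B (by omega) (wx_deg uu_deg ww_deg) ?_ ?_
  · intro p
    obtain ⟨a, ha⟩ := tx0 (by omega : 1 ≤ d) p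
    refine ⟨a, ?_, ?_, ?_⟩
    · rw [ha, coeff_add, coeff_X_pow, if_neg (by omega), coeff_C_zero, zero_add]
    · rw [ha, coeff_add, coeff_X_pow, if_pos rfl, coeff_C, if_neg (by omega), add_zero]
    · intro j h0 hN
      rw [ha, coeff_add, coeff_X_pow, if_neg hN, coeff_C, if_neg h0, add_zero]
      exact dvd_zero _
  · intro p
    obtain ⟨a, ha⟩ := tx1 hd p
    refine ⟨a, ?_, ?_, ?_, ?_⟩
    · rw [ha, coeff_add, coeff_X_pow, if_neg (by omega), coeff_C_mul, coeff_X_zero, mul_zero,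
        zero_add]
    · rw [ha, coeff_add, coeff_X_pow, if_neg (by omega), coeff_C_mul, coeff_X_one, mul_one,
        zero_add]
    · rw [ha, coeff_add, coeff_X_pow, if_pos rfl, coeff_C_mul, coeff_X, if_neg (by omega), mul_zero,
        add_zero]
    · intro j h0 h1 hN
      rw [ha, coeff_add, coeff_X_pow, if_neg hN, zero_add, coeff_C_mul]
      exact dvd_mul_right _ _

theorem dens_w (hd : 3 ≤ d) : D0 {x : I2 d × J → ℤ | ¬ GoodC d ((ww d).map (av (kv B x)))} := by
  refine good_of B hd ww_deg ?_ ?_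
  · intro p
    obtain ⟨a, h2⟩ : ∃ a : I2 d → ℤ, (ww d).map (av a) = X ^ d + C p := by
      have h2 := (vec (by omega : 1 ≤ d)
        (Pi.single (Fin.last d) 1 + Pi.single 0 p : Fin (d + 1) → ℤ)).2
      rw [polA_add', polA_single, polA_single, Fin.val_last, Fin.val_zero, C_1, one_mul,
        pow_zero, mul_one] at h2
      exact ⟨_, h2⟩
    refine ⟨a, ?_, ?_, ?_⟩
    · rw [h2, coeff_add, coeff_X_pow, if_neg (by omega), coeff_C_zero, zero_add]
    · rw [h2, coeff_add, coeff_X_pow, if_pos rfl, coeff_C, if_neg (by omega), add_zero]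
    · intro j h0 hN
      rw [h2, coeff_add, coeff_X_pow, if_neg hN, coeff_C, if_neg h0, add_zero]
      exact dvd_zero _
  · intro p
    obtain ⟨a, h2⟩ : ∃ a : I2 d → ℤ, (ww d).map (av a) = X ^ d + C p * X := by
      have h2 := (vec (by omega : 1 ≤ d)
        (Pi.single (Fin.last d) 1 + Pi.single 1 p : Fin (d + 1) → ℤ)).2
      rw [polA_add', polA_single, polA_single, Fin.val_last, one_val (by omega), C_1, one_mul,
        pow_one] at h2
      exact ⟨_, h2⟩
    refine ⟨a, ?_, ?_, ?_, ?_⟩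
    · rw [h2, coeff_add, coeff_X_pow, if_neg (by omega), coeff_C_mul, coeff_X_zero, mul_zero,
        zero_add]
    · rw [h2, coeff_add, coeff_X_pow, if_neg (by omega), coeff_C_mul, coeff_X_one, mul_one,
        zero_add]
    · rw [h2, coeff_add, coeff_X_pow, if_pos rfl, coeff_C_mul, coeff_X, if_neg (by omega), mul_zero,
        add_zero]
    · intro j h0 h1 hN
      rw [h2, coeff_add, coeff_X_pow, if_neg hN, zero_add, coeff_C_mul]
      exact dvd_mul_right _ _

/-- coefficients of the targets for `γ` -/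
theorem cg0 (hd : 1 ≤ d) (p : ℤ) (j : ℕ) : (X ^ (3 * d) - C p * X ^ d + C p : ℤ[X]).coeff j =
    (if j = 3 * d then 1 else 0) - p * (if j = d then 1 else 0) + if j = 0 then p else 0 := by
  rw [coeff_add, coeff_sub, coeff_X_pow, coeff_C_mul, coeff_X_pow, coeff_C]

theorem cg1 (hd : 1 ≤ d) (p : ℤ) (j : ℕ) :
    (X ^ (3 * d) - C p * X ^ (d + 1) + C p * X : ℤ[X]).coeff j =
    (if j = 3 * d then 1 else 0) - p * (if j = d + 1 then 1 else 0) +
      p * if 1 = j then 1 else 0 := by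
  rw [coeff_add, coeff_sub, coeff_X_pow, coeff_C_mul, coeff_X_pow, coeff_C_mul, coeff_X]

theorem dens_g (hd : 2 ≤ d) : D0 {x : I2 d × J → ℤ |
    ¬ GoodC (3 * d) ((wg (uu d) (ww d)).map (av (kv B x)))} := by
  refine good_of B (by omega) (wg_deg uu_deg ww_deg) ?_ ?_
  · intro p
    obtain ⟨a, ha, -⟩ := tg0 (by omega : 1 ≤ d) p
    refine ⟨a, ?_, ?_, ?_⟩
    · rw [ha, cg0 (by omega), if_neg (by omega), if_neg (by omega), if_pos rfl]
      ring
    · rw [ha, cg0 (by omega), if_pos rfl, if_neg (by omega), if_neg (by omega)]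
      ring
    · intro j h0 hN
      rw [ha, cg0 (by omega), if_neg hN, if_neg h0, add_zero, zero_sub]
      exact (dvd_mul_right _ _).neg_right
  · intro p
    obtain ⟨a, ha, -⟩ := tg1 hd p
    refine ⟨a, ?_, ?_, ?_, ?_⟩
    · rw [ha, cg1 (by omega), if_neg (by omega), if_neg (by omega), if_neg (by omega)]
      ring
    · rw [ha, cg1 (by omega), if_neg (by omega), if_neg (by omega), if_pos rfl]
      ring
    · rw [ha, cg1 (by omega), if_pos rfl, if_neg (by omega), if_neg (by omega)]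
      ring
    · intro j h0 h1 hN
      rw [ha, cg1 (by omega), if_neg hN, zero_sub]
      exact ((dvd_mul_right _ _).neg_right).add (dvd_mul_right _ _)

/-- The generic `β² - 11 β γ - γ²`. -/
noncomputable def qq (d : ℕ) : (MvPolynomial (I2 d) ℤ)[X] :=
  qf (ww d * wx (uu d) (ww d)) (wg (uu d) (ww d))

theorem qq_ne (hd : 1 ≤ d) : qq d ≠ 0 := by
  intro h
  obtain ⟨a, h1, h2⟩ := tg0 hd 0
  have h3 := congrArg (Polynomial.map (av a)) h
  rw [qq, qf_map, h1, h2, Polynomial.map_zero, C_0, zero_mul, zero_mul, sub_zero, add_zero] at h3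
  unfold qf at h3
  have h4 : (X ^ (3 * d)) ^ 2 = (0 : ℤ[X]) := by linear_combination -h3
  exact pow_ne_zero 2 (pow_ne_zero _ X_ne_zero) h4

/-- small factors -/
theorem dens_q0 (hd : 1 ≤ d) {i : ℕ} (h1 : 1 ≤ i) (h2 : 2 * i < 3 * d) :
    D0 (FacSetE B (qq d) i 2) := by
  refine dens_qf B (l := 0) (L := 3 * d) (by omega) (by omega) (by simpa using wg_deg uu_deg ww_deg)
    (by simpa using wb_deg uu_deg ww_deg) (by omega) ?_ (qq_ne hd) ?_
  · intro e he1 he2
    have hg : Nat.gcd e (3 * d) ≤ 2 := (Nat.gcd_le_left _ (by omega)).trans he2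
    have h3 : i * Nat.gcd e (3 * d) ≤ i * 2 := Nat.mul_le_mul_left _ hg
    omega
  · intro p hp _ _
    obtain ⟨a, h1, h2⟩ := tg0 hd (p : ℤ)
    refine ⟨a, 1, isCoprime_one_left, ?_, ?_, ?_, ?_, ?_, ?_⟩
    · rw [h1, cg0 hd, if_neg (by omega), if_neg (by omega), if_pos rfl]
      ring
    · intro j hj
      omega
    · rw [h1, zero_add, cg0 hd, if_pos rfl, if_neg (by omega), if_neg (by omega)]
      ring_nf
      exact isCoprime_one_left
    · intro j hj
      rw [zero_add] at hj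
      rw [h1, cg0 hd, if_neg hj, zero_sub]
      refine (dvd_mul_right _ _).neg_right.add ?_
      split_ifs
      · exact dvd_rfl
      · exact dvd_zero _
    · intro j hj
      have hj0 : j = 0 := by omega
      rw [h2, coeff_C_mul, hj0, coeff_sub, coeff_add, coeff_X_pow, coeff_X_pow, if_neg (by omega),
        if_neg (by omega), coeff_C_zero]
      exact ⟨-1, by ring⟩
    · intro j
      rw [h2, coeff_C_mul]
      exact dvd_mul_right _ _

/-- the half -/
theorem dens_q1 (hd : 2 ≤ d) {i : ℕ} (h2 : 2 * i = 3 * d) : D0 (FacSetE B (qq d) i 4) := by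
  refine dens_qf B (l := 1) (L := 3 * d - 1) (by omega) (by omega)
    ((wg_deg uu_deg ww_deg).trans (by omega)) ((wb_deg uu_deg ww_deg).trans (by omega))
    (by omega) ?_ (qq_ne (by omega)) ?_
  · intro e he1 he2
    have hodd : Odd (3 * d - 1) := ⟨i - 1, by omega⟩
    have hg : Nat.gcd e (3 * d - 1) = 1 := by
      interval_cases e
      · exact Nat.gcd_one_left _
      · exact (Nat.coprime_two_left).2 hodd
      · have h3 : ¬ 3 ∣ 3 * d - 1 := by omega
        exact (Nat.Prime.coprime_iff_not_dvd (by norm_num)).2 h3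
      · rw [show (4 : ℕ) = 2 ^ 2 by norm_num]
        exact Nat.Coprime.pow_left 2 ((Nat.coprime_two_left).2 hodd)
    rw [hg]
    omega
  · intro p hp _ _
    obtain ⟨a, h1, h2⟩ := tg1 hd (p : ℤ)
    refine ⟨a, 1, isCoprime_one_left, ?_, ?_, ?_, ?_, ?_, ?_⟩
    · rw [h1, cg1 (by omega), if_neg (by omega), if_neg (by omega), if_pos rfl]
      ring
    · intro j hj
      have hj0 : j = 0 := by omega
      rw [h1, cg1 (by omega), hj0, if_neg (by omega), if_neg (by omega), if_neg (by omega)]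
      simp
    · rw [h1, cg1 (by omega), if_pos (by omega), if_neg (by omega), if_neg (by omega)]
      ring_nf
      exact isCoprime_one_left
    · intro j hj
      rw [h1, cg1 (by omega), if_neg (by omega), zero_sub]
      exact ((dvd_mul_right _ _).neg_right).add (dvd_mul_right _ _)
    · intro j hj
      have e : (C (p : ℤ) * X * (X ^ (2 * d) + X ^ d - C (p : ℤ) * X) : ℤ[X]) =
          C (p : ℤ) * X ^ (2 * d + 1) + C (p : ℤ) * X ^ (d + 1) - C ((p : ℤ) ^ 2) * X ^ 2 := by
        rw [C_pow]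
        ring
      rw [h2, e, coeff_sub, coeff_add, coeff_C_mul, coeff_C_mul, coeff_C_mul, coeff_X_pow,
        coeff_X_pow, coeff_X_pow, if_neg (by omega), if_neg (by omega), if_neg (by omega)]
      simp
    · intro j
      rw [h2, mul_assoc, coeff_C_mul]
      exact dvd_mul_right _ _

end nf

end Pool.Agent.Helper70K9.R5
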