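import Pool.Agent.Helper70K9.R5.Ru

/-!
# The polynomials `β - e γ`
-/

set_option autoImplicit false
set_option linter.all false

namespace Pool.Agent.Helper70K9.R5

open Polynomial NumberField Pool.Agent.R939.EI Pool.Agent.R939.HI Pool.Agent.W275.UB
open Pool.Agent.R939.KM Pool.Agent.R939.PP Pool.Agent.Helper70K9.TN Pool.Agent.Helper70K9.F5
open scoped IntermediateField Nat

section nf

variable {k k' : Type} [Field k] [NumberField k] [Field k'] [Algebra k k'] [IsSepClosure k k']
  {J : Type} [Fintype J] (B : Module.Basis J ℤ (𝓞 k)) {d : ℕ}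

/-- The product of the two conjugates. -/
theorem tw_prod {κ : Type} [Field κ] [Algebra k κ] {g : κ} (hg : g ^ 2 - 11 * g - 1 = 0)
    (β γ : k[X]) : (β.map (algebraMap k κ) - C g * γ.map (algebraMap k κ)) *
      (β.map (algebraMap k κ) - C (11 - g) * γ.map (algebraMap k κ)) =
      (qf β γ).map (algebraMap k κ) := by
  rw [qf_map]
  unfold qf
  have h1 : C g ^ 2 - 11 * C g - 1 = (0 : κ[X]) := by
    have h2 : C (g ^ 2 - 11 * g - 1) = (0 : κ[X]) := by rw [hg, C_0]
    rw [C_sub, C_sub, C_pow, C_mul, C_1] at h2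
    rw [show (C 11 : κ[X]) = 11 from map_ofNat C 11] at h2
    exact h2
  rw [C_sub, show (C 11 : κ[X]) = 11 from map_ofNat C 11]
  linear_combination (-(γ.map (algebraMap k κ)) ^ 2) * h1

/-- **The conditions on `β - e γ` hold for almost all parameters.** -/
theorem dens_eW (hd : 2 ≤ d) {e : k'} (he : e ^ 2 - 11 * e - 1 = 0) :
    D0 {x : I2 d × J → ℤ | ¬ GoodC (3 * d)
      (tw5 e ((ww d * wx (uu d) (ww d)).map (av (kv B x))) ((wg (uu d) (ww d)).map (av (kv B x))))} := by
  classical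
  haveI : IsSepClosed k' := IsSepClosure.sep_closed k
  have hint : IsIntegral k e := Algebra.IsIntegral.isIntegral e
  haveI : FiniteDimensional k k⟮e⟯ := IntermediateField.adjoin.finiteDimensional hint
  haveI : CharZero k⟮e⟯ := charZero_of_injective_algebraMap (algebraMap k k⟮e⟯).injective
  haveI : IsScalarTower ℚ k k⟮e⟯ := IsScalarTower.of_algebraMap_eq fun q => by simp
  haveI : FiniteDimensional ℚ k⟮e⟯ := FiniteDimensional.trans ℚ k k⟮e⟯
  haveI : NumberField k⟮e⟯ := { to_charZero := inferInstance, to_finiteDimensional := inferInstance }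
  set g := IntermediateField.AdjoinSimple.gen k e with hg
  have hgr : g ^ 2 - 11 * g - 1 = 0 := by
    apply (algebraMap k⟮e⟯ k').injective
    rw [map_sub, map_sub, map_mul, map_pow, map_one, map_zero, map_ofNat,
      IntermediateField.AdjoinSimple.algebraMap_gen]
    exact he
  have hfr : Module.finrank k k⟮e⟯ = (minpoly k e).natDegree := IntermediateField.adjoin.finrank hint
  have hle : Module.finrank k k⟮e⟯ ≤ 2 := by
    rw [hfr, ← Pool.Agent.Helper7K9.T3.stab_index (k := k) e]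
    exact index_e he
  set n0 := (2 * (3 * d * Module.finrank ℚ k⟮e⟯))! with hn0
  have hn0' : 0 < n0 := Nat.factorial_pos _
  have s1 : D0 (⋃ i ∈ (Finset.range (3 * d)).filter (fun i => 1 ≤ i ∧ 2 * i < 3 * d),
      FacSetE B (qq d) i 2) := D0.biUnion _ _ fun i hi => by
    rw [Finset.mem_filter] at hi
    exact dens_q0 B (by omega) hi.2.1 hi.2.2
  have s2 : D0 (⋃ i ∈ (Finset.range (3 * d)).filter (fun i => 2 * i = 3 * d),
      FacSetE B (qq d) i 4) := D0.biUnion _ _ fun i hi => by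
    rw [Finset.mem_filter] at hi
    exact dens_q1 B hd hi.2
  have s3 := dens_lead (ω := B) (qq_top (by omega : 1 ≤ d))
  have s4 := dens_ru B (by omega : 1 ≤ d) hn0'
  intro ε hε
  refine ((((s1.union s2).union s3).union s4) ε hε).mono ?_
  intro x hx
  by_contra hcon
  simp only [Set.mem_union, not_or, Set.mem_iUnion, exists_prop, not_exists, not_and,
    Finset.mem_filter, Finset.mem_range] at hcon
  obtain ⟨⟨⟨k1, k2⟩, k3⟩, k4⟩ := hcon
  rw [Set.mem_setOf_eq, not_not] at k4
  apply hx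
  set β := (ww d * wx (uu d) (ww d)).map (av (kv B x)) with hβ
  set γ := (wg (uu d) (ww d)).map (av (kv B x)) with hγ
  have hq : (qq d).map (av (kv B x)) = qf β γ := by rw [qq, qf_map]
  have dβ : β.natDegree ≤ 3 * d := natDegree_map_le.trans (wb_deg uu_deg ww_deg)
  have dγ : γ.natDegree ≤ 3 * d := natDegree_map_le.trans (wg_deg uu_deg ww_deg)
  have hd' : ∀ c : k⟮e⟯, (β.map (algebraMap k k⟮e⟯) -
      C c * γ.map (algebraMap k k⟮e⟯)).natDegree ≤ 3 * d := by
    intro c
    refine (natDegree_sub_le _ _).trans (max_le ?_ ?_)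
    · rw [natDegree_map]
      exact dβ
    · refine (natDegree_C_mul_le _ _).trans ?_
      rw [natDegree_map]
      exact dγ
  set f := tw5 e β γ with hf
  have hfe : f = β.map (algebraMap k k⟮e⟯) - C g * γ.map (algebraMap k k⟮e⟯) := rfl
  set f' := β.map (algebraMap k k⟮e⟯) - C (11 - g) * γ.map (algebraMap k k⟮e⟯) with hf'
  have hprod : f * f' = (qf β γ).map (algebraMap k k⟮e⟯) := by
    rw [hfe, hf']
    exact tw_prod hgr β γ
  have hcoef : f.coeff (3 * d) ≠ 0 := by
    intro h0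
    apply k3
    rw [Set.mem_setOf_eq, hq]
    apply (algebraMap k k⟮e⟯).injective
    rw [map_zero, ← coeff_map, ← hprod, show 6 * d = 3 * d + 3 * d by ring,
      coeff_mul_add_eq_of_natDegree_le (by rw [hfe]; exact hd' g) (hd' (11 - g)), h0, zero_mul]
  have hfd : f.natDegree = 3 * d :=
    le_antisymm (by rw [hfe]; exact hd' g) (le_natDegree_of_ne_zero hcoef)
  have hf0 : f ≠ 0 := by
    intro h0
    rw [h0, natDegree_zero] at hfd
    omega
  -- factors of `f`
  have key : ∀ (L : Type) [Field L] [Algebra k⟮e⟯ L] (E i : ℕ), 0 < Module.finrank k⟮e⟯ L →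
      Module.finrank k k⟮e⟯ * Module.finrank k⟮e⟯ L ≤ E → x ∉ FacSetE B (qq d) i E →
      ∀ g0 h0 : L[X], g0.Monic → g0.natDegree = i → g0 * h0 ≠ f.map (algebraMap k⟮e⟯ L) := by
    intro L _ _ E i hpos hE hxE g0 h0 hg0 hgi hgh
    letI : Algebra k L := ((algebraMap k⟮e⟯ L).comp (algebraMap k k⟮e⟯)).toAlgebra
    haveI : IsScalarTower k k⟮e⟯ L := IsScalarTower.of_algebraMap_eq fun _ => rfl
    haveI : FiniteDimensional k⟮e⟯ L := Module.finite_of_finrank_pos hpos
    haveI : FiniteDimensional k L := FiniteDimensional.trans k k⟮e⟯ L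
    haveI : CharZero L := charZero_of_injective_algebraMap (algebraMap k⟮e⟯ L).injective
    haveI : IsScalarTower ℚ k L := IsScalarTower.of_algebraMap_eq fun q => by simp
    haveI : FiniteDimensional ℚ L := FiniteDimensional.trans ℚ k L
    haveI : NumberField L := { to_charZero := inferInstance, to_finiteDimensional := inferInstance }
    refine not_facSetE B hxE (K := L) ?_ g0 (h0 * f'.map (algebraMap k⟮e⟯ L)) hg0 hgi ?_
    · rw [← Module.finrank_mul_finrank k k⟮e⟯ L]
      exact hE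
    · rw [← mul_assoc, hgh, ← Polynomial.map_mul, hprod, hq, Polynomial.map_map]
      rfl
  have h1 : Module.finrank k⟮e⟯ k⟮e⟯ = 1 := Module.finrank_self _
  have hmid : f.map (algebraMap k⟮e⟯ k⟮e⟯) = f := by
    rw [show algebraMap k⟮e⟯ k⟮e⟯ = RingHom.id _ from rfl, Polynomial.map_id]
  refine ⟨?_, hfd, ?_, ?_⟩
  · have hu : ¬ IsUnit f := by
      intro h0
      have := natDegree_eq_zero_of_isUnit h0
      omega
    rw [irreducible_iff_lt_natDegree_lt hf0 hu]
    intro q hqm hqd hqdvd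
    rw [Finset.mem_Ioc, hfd] at hqd
    obtain ⟨r, hr⟩ := hqdvd
    have h2 : q * r = f.map (algebraMap k⟮e⟯ k⟮e⟯) := by rw [hmid, hr]
    rcases Nat.lt_or_ge (2 * q.natDegree) (3 * d) with h3 | h3
    · exact key k⟮e⟯ 2 q.natDegree (by rw [h1]; norm_num) (by rw [h1]; omega)
        (k1 _ ⟨by omega, by omega, h3⟩) q r hqm rfl h2
    · exact key k⟮e⟯ 4 q.natDegree (by rw [h1]; norm_num) (by rw [h1]; omega)
        (k2 _ ⟨by omega, by omega⟩) q r hqm rfl h2
  · intro L _ _ hL g0 h0 hg0 hdeg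
    rw [hfd] at hdeg
    exact key L 4 g0.natDegree (by rw [hL]; norm_num) (by rw [hL]; omega)
      (k2 _ ⟨by omega, hdeg⟩) g0 h0 hg0 rfl
  · refine cop_all hf0 (D := 3 * d * Module.finrank ℚ k⟮e⟯) (by rw [hfd]) hn0 ?_
    have h2 := k4.map (Polynomial.mapRingHom (algebraMap k k⟮e⟯))
    rw [coe_mapRingHom, hq, ← hprod, Polynomial.map_mul, Polynomial.map_sub, Polynomial.map_pow,
      map_X, Polynomial.map_one] at h2
    exact h2.of_mul_left_left

/-- All the conditions. -/
structure AllW (k' : Type) [Field k'] [Algebra k k'] (d : ℕ) (u w : k[X]) : Prop where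
  cw : GoodC d w
  cx : GoodC (2 * d) (wx u w)
  cg : GoodC (3 * d) (wg u w)
  ce : ∀ e : k', e ^ 2 - 11 * e - 1 = 0 → GoodC (3 * d) (tw5 e (w * wx u w) (wg u w))

/-- **All the conditions hold for almost all parameters.** -/
theorem dens_allW (hd : 3 ≤ d) : D0 {x : I2 d × J → ℤ | ¬ AllW k' d
    (polA fun j => kv B x (Sum.inl j)) (polA fun j => kv B x (Sum.inr j))} := by
  haveI : IsSepClosed k' := IsSepClosure.sep_closed k
  have h1 := dens_w B hd
  have h2 := dens_x B (by omega : 2 ≤ d)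
  have h3 := dens_g B (by omega : 2 ≤ d)
  have h4 : ∃ e1 e2 : k', ∀ e : k', e ^ 2 - 11 * e - 1 = 0 → e = e1 ∨ e = e2 := by
    by_cases h : ∃ e : k', e ^ 2 - 11 * e - 1 = 0
    · obtain ⟨e1, h1⟩ := h
      refine ⟨e1, 11 - e1, fun e he => ?_⟩
      have h5 : (e - e1) * (e - (11 - e1)) = 0 := by linear_combination he - h1
      rcases mul_eq_zero.1 h5 with h6 | h6
      · exact Or.inl (sub_eq_zero.1 h6)
      · exact Or.inr (sub_eq_zero.1 h6)
    · exact ⟨0, 0, fun e he => (h ⟨e, he⟩).elim⟩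
  obtain ⟨e1, e2, h4⟩ := h4
  have h5 : ∀ e : k', D0 {x : I2 d × J → ℤ | e ^ 2 - 11 * e - 1 = 0 ∧
      ¬ GoodC (3 * d) (tw5 e ((ww d * wx (uu d) (ww d)).map (av (kv B x)))
        ((wg (uu d) (ww d)).map (av (kv B x))))} := by
    intro e
    by_cases he : e ^ 2 - 11 * e - 1 = 0
    · intro ε hε
      exact (dens_eW B (by omega : 2 ≤ d) he ε hε).mono fun x hx => hx.2
    · intro ε hε
      exact (D0.empty ε hε).mono fun x hx => (he hx.1).elim
  intro ε hε
  refine (((((h1.union h2).union h3).union (h5 e1)).union (h5 e2)) ε hε).mono ?_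
  intro x hx
  by_contra hcon
  simp only [Set.mem_union, not_or, Set.mem_setOf_eq, wx_map, wg_map, Polynomial.map_mul, uu_map,
    ww_map] at hcon
  obtain ⟨⟨⟨⟨k1, k2⟩, k3⟩, k4⟩, k5⟩ := hcon
  refine hx ⟨not_not.1 k1, not_not.1 k2, not_not.1 k3, fun e he => ?_⟩
  by_contra hg
  rcases h4 e he with rfl | rfl
  · exact k4 ⟨he, hg⟩
  · exact k5 ⟨he, hg⟩

end nf

end Pool.Agent.Helper70K9.R5
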