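import Pool.Agent.Helper70K9.TN.Loc

/-!
# Newton polygons of `B² - 11 B G - G²`
-/

set_option autoImplicit false
set_option linter.all false

namespace Pool.Agent.Helper70K9.R5

open Polynomial Pool.Agent.R939.HI Pool.Agent.Helper70K9.TN

section mi

variable {A : Type} [CommRing A] [IsDomain A] [IsDiscreteValuationRing A] {π : A} {q c : ℕ}

theorem Ex.neg' {w j : ℕ} {x : A} (h : Ex π q c w j x) : Ex π q c w j (-x) := by
  obtain ⟨n, u, rfl, hn⟩ := h
  exact ⟨n, -u, by rw [Units.val_neg]; ring, hn⟩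

theorem Ge.neg' {w j : ℕ} {x : A} (h : Ge π q c w j x) : Ge π q c w j (-x) :=
  fun n hn => (dvd_neg).2 (h n hn)

theorem Ge.smul' {w j : ℕ} {x : A} (r : A) (h : Ge π q c w j x) : Ge π q c w j (r * x) :=
  fun n hn => (h n hn).mul_left r

/-- products of polynomials with coefficients of weight at least `w`, `w'` -/
theorem ge_mul (hπ : Irreducible π) (hq : 0 < q) {g h : A[X]} {w w' : ℕ}
    (hg : ∀ j, Ge π q c w j (g.coeff j)) (hh : ∀ j, Ge π q c w' j (h.coeff j)) (s : ℕ) :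
    Ge π q c (w + w') s ((g * h).coeff s) := by
  rw [coeff_mul]
  refine Ge.sum _ _ ?_
  rintro ⟨i, j⟩ hij
  rw [Finset.HasAntidiagonal.mem_antidiagonal] at hij
  dsimp only at hij
  rw [← hij]
  exact (hg i).mul hπ hq (hh j)

/-- The polynomial `B² - 11 B G - G²`. -/
noncomputable def qf {R : Type} [CommRing R] (B G : R[X]) : R[X] := B ^ 2 - 11 * (B * G) - G ^ 2

theorem qf_map {R S : Type} [CommRing R] [CommRing S] (φ : R →+* S) (B G : R[X]) :
    (qf B G).map φ = qf (B.map φ) (G.map φ) := by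
  unfold qf
  rw [Polynomial.map_sub, Polynomial.map_sub, Polynomial.map_pow, Polynomial.map_mul,
    Polynomial.map_mul, Polynomial.map_pow, Polynomial.map_ofNat]

theorem mi_qf {ρ : ℕ → ℕ → Prop} (hρ : Rho ρ) (hπ : Irreducible π) (hq : 0 < q) {B G : A[X]}
    {l w : ℕ} (hG : Mi π q c ρ G l w) (hB : ∀ j, Ge π q c (w + 1) j (B.coeff j)) :
    Mi π q c ρ (qf B G) (l + l) (w + w) := by
  have h1 := hG.mul hρ hπ hq hG
  have h2 : ∀ j, Ge π q c (w + w + 1) j ((B * B - 11 * (B * G)).coeff j) := by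
    intro j
    rw [coeff_sub, sub_eq_add_neg]
    refine ((ge_mul hπ hq hB hB j).mono (by omega)).add (Ge.neg' ?_)
    have e : (11 * (B * G)).coeff j = 11 * (B * G).coeff j := by
      rw [show (11 : A[X]) = C 11 from (map_ofNat C 11).symm, coeff_C_mul]
    rw [e]
    exact Ge.smul' _ ((ge_mul hπ hq hB hG.2.1 j).mono (by omega))
  have e : ∀ j, (qf B G).coeff j = -((G * G).coeff j) + (B * B - 11 * (B * G)).coeff j := by
    intro j
    rw [← coeff_neg, ← coeff_add]
    congr 1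
    unfold qf
    ring
  refine ⟨?_, ?_, ?_⟩
  · rw [e]
    exact (Ex.neg' h1.1).add hπ (h2 _)
  · intro j
    rw [e]
    exact (Ge.neg' (h1.2.1 j)).add ((h2 j).mono (by omega))
  · intro j hj
    rw [e]
    exact (Ge.neg' (h1.2.2 j hj)).add (h2 j)

end mi

section loc

variable {ι : Type} {B G : (MvPolynomial ι ℤ)[X]} {N : ℕ}
  {K' : Type} [Field K'] {A : Type} [CommRing A] [IsDomain A] [IsDiscreteValuationRing A]
  [Algebra A K'] [IsFractionRing A K'] {π : A} {p : ℕ}

/-- factors near a target with the Newton polygon of `t ^ l (t ^ L + p)`, `l ≤ 1` -/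
theorem loc_qf {l L : ℕ} (hl1 : l ≤ 1) (hL2 : 2 ≤ L) (hGd : G.natDegree ≤ l + L)
    (hBd : B.natDegree ≤ l + L) {a : ι → ℤ} {w : ℤ}
    (hw : IsCoprime w (p : ℤ)) (hTl : (G.map (av a)).coeff l = (p : ℤ) * w)
    (hT0 : ∀ j, j < l → (p : ℤ) ^ 2 ∣ (G.map (av a)).coeff j)
    (hTN : IsCoprime ((G.map (av a)).coeff (l + L)) (p : ℤ))
    (hTj : ∀ j, j ≠ l + L → (p : ℤ) ∣ (G.map (av a)).coeff j)
    (hB0 : ∀ j, j ≤ l → (p : ℤ) ^ 2 ∣ (B.map (av a)).coeff j)
    (hBj : ∀ j, (p : ℤ) ∣ (B.map (av a)).coeff j) {E0 i : ℕ}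
    (hi : 2 * l < i) (hE0 : ∀ e, 1 ≤ e → e ≤ E0 → i * Nat.gcd e L < L)
    (hπ : Irreducible π) (hπp : π ∣ (p : A)) (hπN : ¬ π ^ (E0 + 1) ∣ (p : A)) {b : ι → A}
    (hb : ∀ i, (p : A) ^ 2 ∣ b i - (a i : A)) {g h : K'[X]} (hg : g.Monic)
    (hgd : g.natDegree = i) : g * h ≠ (qf B G).map (av fun i => algebraMap A K' (b i)) := by
  intro e
  have hp0 : (p : A) ≠ 0 := p_ne hπN
  rw [map_map_av] at e
  obtain ⟨E, u, hE⟩ := IsDiscreteValuationRing.eq_unit_mul_pow_irreducible hp0 hπ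
  have hE1 : 1 ≤ E := by
    rw [hE, ← pow_one π, ← pow_mul, one_mul] at hπp
    exact (pow_dvd_unit hπ).1 hπp
  have hE2 : E ≤ E0 := by
    rw [hE, pow_dvd_unit hπ] at hπN
    omega
  set N := l + L with hN
  set Gb := G.map (av b) with hGb
  set Bb := B.map (av b) with hBb
  have hF : (qf B G).map (av b) = qf Bb Gb := qf_map _ _ _
  rw [hF] at e
  set d := Nat.gcd E L with hdd
  have hdpos : 0 < d := Nat.gcd_pos_of_pos_left _ hE1
  obtain ⟨c, hc⟩ : d ∣ E := Nat.gcd_dvd_left _ _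
  obtain ⟨q, hq⟩ : d ∣ L := Nat.gcd_dvd_right _ _
  have hq0 : 0 < q := by
    rcases Nat.eq_zero_or_pos q with h0 | h0
    · rw [h0, Nat.mul_zero] at hq; omega
    · exact h0
  have hc0 : 0 < c := by
    rcases Nat.eq_zero_or_pos c with h0 | h0
    · rw [h0, Nat.mul_zero] at hc; omega
    · exact h0
  have hcop : Nat.Coprime q c := by
    have h1 := Nat.coprime_div_gcd_div_gcd (m := E) (n := L) hdpos
    rw [← hdd] at h1
    have e1 : E / d = c := by rw [hc]; exact Nat.mul_div_cancel_left _ hdpos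
    have e2 : L / d = q := by rw [hq]; exact Nat.mul_div_cancel_left _ hdpos
    rw [e1, e2] at h1
    exact h1.symm
  have hqE : q * E = c * L := by
    calc q * E = q * (d * c) := by rw [← hc]
      _ = c * (d * q) := by ring
      _ = c * L := by rw [← hq]
  have hcN : c * N = c * L + c * l := by
    rw [hN]; ring
  have hpow : ∀ n, (p : A) ^ n = ((u ^ n : Aˣ) : A) * π ^ (n * E) := by
    intro n
    rw [hE, Units.val_pow_eq_pow_val, mul_pow, ← pow_mul, Nat.mul_comm E n]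
  have hcl : c * l ≤ c * 1 := Nat.mul_le_mul_left _ hl1
  -- the two estimates
  have ge2 : ∀ (j : ℕ) (x : A), (p : A) ^ 2 ∣ x → Ge π q c (c * N + 1) j x := by
    intro j x hx n hn
    refine Dvd.dvd.trans ?_ hx
    rw [hpow, pow_dvd_unit hπ]
    by_contra hlt
    push Not at hlt
    have h4 : 2 * E ≤ n := by omega
    have h5 : q * (2 * E) ≤ q * n := Nat.mul_le_mul_left _ h4
    have h6 : q * (2 * E) = c * L + c * L := by
      rw [← hqE]; ring
    have h7 : c * 2 ≤ c * L := Nat.mul_le_mul_left _ hL2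
    omega
  have ge1 : ∀ (j : ℕ) (x : A), l < j → (p : A) ∣ x → Ge π q c (c * N + 1) j x := by
    intro j x hj hx n hn
    rw [← pow_one (p : A)] at hx
    refine Dvd.dvd.trans ?_ hx
    rw [hpow, pow_dvd_unit hπ]
    by_contra hlt
    push Not at hlt
    have h4 : E ≤ n := by omega
    have h5 : q * E ≤ q * n := Nat.mul_le_mul_left _ h4
    have h7 : c * (l + 1) ≤ c * j := Nat.mul_le_mul_left _ hj
    have h8 : c * (l + 1) = c * l + c := by ring
    omega
  have near : ∀ (P : (MvPolynomial ι ℤ)[X]) (j : ℕ), ∃ z : A, (P.map (av b)).coeff j =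
      (((P.map (av a)).coeff j : ℤ) : A) + (p : A) ^ 2 * z := fun P j => coeff_near hb P j
  have dv1 : ∀ (P : (MvPolynomial ι ℤ)[X]) (j : ℕ), (p : ℤ) ∣ (P.map (av a)).coeff j →
      (p : A) ∣ (P.map (av b)).coeff j := by
    intro P j hj
    obtain ⟨z, hz⟩ := near P j
    obtain ⟨y, hy⟩ := hj
    rw [hz, hy]
    exact ⟨(y : A) + p * z, by push_cast; ring⟩
  have dv2 : ∀ (P : (MvPolynomial ι ℤ)[X]) (j : ℕ), (p : ℤ) ^ 2 ∣ (P.map (av a)).coeff j →
      (p : A) ^ 2 ∣ (P.map (av b)).coeff j := by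
    intro P j hj
    obtain ⟨z, hz⟩ := near P j
    obtain ⟨y, hy⟩ := hj
    rw [hz, hy]
    exact ⟨(y : A) + z, by push_cast; ring⟩
  have hBge : ∀ j, Ge π q c (c * N + 1) j (Bb.coeff j) := by
    intro j
    by_cases hj : j ≤ l
    · exact ge2 j _ (dv2 B j (hB0 j hj))
    · exact ge1 j _ (by omega) (dv1 B j (hBj j))
  have exl : Ex π q c (c * N) l (Gb.coeff l) := by
    obtain ⟨z, hz⟩ := near G l
    have hU : IsUnit ((w : A) + (p : A) * z) := unit_add hπ (unit_int hπ hπp hw) (hπp.mul_right _)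
    obtain ⟨U, hU'⟩ := hU
    refine ⟨E, u * U, ?_, ?_⟩
    · rw [hGb, hz, hTl, Units.val_mul, hU']
      push_cast
      calc (p : A) * w + (p : A) ^ 2 * z = (p : A) * (w + p * z) := by ring
        _ = (u * π ^ E) * (w + p * z) := by rw [← hE]
        _ = _ := by ring
    · rw [hqE, hcN]
  have exN : Ex π q c (c * N) N (Gb.coeff N) := by
    obtain ⟨z, hz⟩ := near G N
    have hU : IsUnit ((((G.map (av a)).coeff N : ℤ) : A) + (p : A) ^ 2 * z) :=
      unit_add hπ (unit_int hπ hπp hTN) ((hπp.trans (dvd_pow_self _ two_ne_zero)).mul_right _)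
    obtain ⟨U, hU'⟩ := hU
    exact ⟨0, U, by rw [hGb, hz, hU', pow_zero, mul_one], by ring⟩
  have hge : ∀ j, j ≠ l → j ≠ N → Ge π q c (c * N + 1) j (Gb.coeff j) := by
    intro j h1 h2
    rcases lt_or_gt_of_ne h1 with h3 | h3
    · exact ge2 j _ (dv2 G j (hT0 j h3))
    · exact ge1 j _ h3 (dv1 G j (hTj j h2))
  have hall : ∀ j, Ge π q c (c * N) j (Gb.coeff j) := by
    intro j
    by_cases h1 : j = l
    · rw [h1]
      exact exl.ge hπ hq0
    by_cases h2 : j = N
    · rw [h2]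
      exact exN.ge hπ hq0
    exact (hge j h1 h2).mono (by omega)
  have hMl : Mi π q c (fun a b => a < b) Gb l (c * N) :=
    ⟨exl, hall, fun j hj => hge j (by omega) (by omega)⟩
  have hMr : Mi π q c (fun a b => b < a) Gb N (c * N) := by
    refine ⟨exN, hall, fun j hj => ?_⟩
    refine hge j ?_ ?_
    · have hj' : N < j := hj
      omega
    · have hj' : N < j := hj
      omega
  have hQl := mi_qf rho_lt hπ hq0 hMl hBge
  have hQr := mi_qf rho_gt hπ hq0 hMr hBge
  have hunit : IsUnit ((qf Bb Gb).coeff (N + N)) := by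
    obtain ⟨n, v, hv, hn⟩ := hQr.1
    have hn0 : n = 0 := by
      have h1 : c * (N + N) = c * N + c * N := by ring
      rw [h1] at hn
      have h2 : q * n = 0 := by omega
      rcases Nat.mul_eq_zero.1 h2 with h3 | h3
      · omega
      · exact h3
    rw [hv, hn0, pow_zero, mul_one]
    exact v.isUnit
  have hle : (qf Bb Gb).natDegree ≤ N + N := by
    have hb1 : Bb.natDegree ≤ N := natDegree_map_le.trans hBd
    have hg1 : Gb.natDegree ≤ N := natDegree_map_le.trans hGd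
    unfold qf
    refine (natDegree_sub_le _ _).trans (max_le ((natDegree_sub_le _ _).trans (max_le ?_ ?_)) ?_)
    · refine natDegree_pow_le.trans ?_
      omega
    · rw [show (11 : A[X]) = C 11 from (map_ofNat C 11).symm]
      refine (natDegree_C_mul_le _ _).trans (natDegree_mul_le.trans ?_)
      omega
    · refine natDegree_pow_le.trans ?_
      omega
  have hdeg : (qf Bb Gb).natDegree = N + N :=
    le_antisymm hle (le_natDegree_of_ne_zero hunit.ne_zero)
  have hlead : IsUnit (qf Bb Gb).leadingCoeff := by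
    rw [leadingCoeff, hdeg]
    exact hunit
  have hsum : g.natDegree + h.natDegree = N + N := by
    have h0 : g * h ≠ 0 := by
      rw [e]
      intro h0
      have h1 := (Polynomial.map_eq_zero_iff (IsFractionRing.injective A K')).1 h0
      rw [h1, coeff_zero] at hunit
      exact hunit.ne_zero rfl
    rw [← natDegree_mul (left_ne_zero_of_mul h0) (right_ne_zero_of_mul h0), e,
      natDegree_map_eq_of_injective (IsFractionRing.injective A K'), hdeg]
  have eN : N + N = (l + l) + (L + L) := by omega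
  rw [eN] at hQr
  rcases newtonL_frac hπ hq0 hcop hlead hQl hQr hg e with h1 | h1
  · have h2 := hE0 E hE1 hE2
    rw [← hdd] at h2
    have h3 : d * q ≤ i * d := by
      rw [Nat.mul_comm i d]
      exact Nat.mul_le_mul_left _ (hgd ▸ h1)
    omega
  · omega

end loc

section dens

variable {O J ι : Type} [CommRing O] [IsDomain O] [Fintype J] [Fintype ι]
  (ω : Module.Basis J ℤ O)

open Pool.Agent.W275.UB

/-- **Factors of `B² - 11 B G - G²` over extensions of small degree.** -/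
theorem dens_qf {B G : (MvPolynomial ι ℤ)[X]} {l L i E : ℕ} (hl1 : l ≤ 1) (hL2 : 2 ≤ L)
    (hGd : G.natDegree ≤ l + L) (hBd : B.natDegree ≤ l + L) (hi : 2 * l < i)
    (hE : ∀ e, 1 ≤ e → e ≤ E → i * Nat.gcd e L < L) (h0 : qf B G ≠ 0)
    (h : ∀ p : ℕ, p.Prime → p ≠ 2 → p ≠ 3 → ∃ (a : ι → ℤ) (w : ℤ), IsCoprime w (p : ℤ) ∧
      (G.map (av a)).coeff l = (p : ℤ) * w ∧ (∀ j, j < l → (p : ℤ) ^ 2 ∣ (G.map (av a)).coeff j) ∧
      IsCoprime ((G.map (av a)).coeff (l + L)) (p : ℤ) ∧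
      (∀ j, j ≠ l + L → (p : ℤ) ∣ (G.map (av a)).coeff j) ∧
      (∀ j, j ≤ l → (p : ℤ) ^ 2 ∣ (B.map (av a)).coeff j) ∧
      ∀ j, (p : ℤ) ∣ (B.map (av a)).coeff j) :
    D0 (FacSetE ω (qf B G) i E) := by
  refine factors6 ω _ h0 _ _ ?_
  intro p hp hp2 hp3
  obtain ⟨a, w, hw, h1, h2, h3, h4, h5, h6⟩ := h p hp hp2 hp3
  refine ⟨a, 2, ?_⟩
  intro K' _ A _ _ _ _ _ π hπ hπp hπN b hb g h hg hgd
  exact loc_qf hl1 hL2 hGd hBd hw h1 h2 h3 h4 h5 h6 hi hE hπ hπp hπN hb hg hgd

end dens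

end Pool.Agent.Helper70K9.R5
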