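import Pool.Agent.Helper70K9.R5.Dn

/-!
# Roots of unity
-/

set_option autoImplicit false
set_option linter.all false

namespace Pool.Agent.Helper70K9.R5

open Polynomial NumberField Pool.Agent.R939.EI Pool.Agent.R939.HI Pool.Agent.W275.UB
open Pool.Agent.R939.KM Pool.Agent.R939.PP Pool.Agent.Helper70K9.TN Pool.Agent.Helper70K9.F5
open scoped IntermediateField Nat

/-- numbers with a small totient divide a factorial -/
theorem dvd_fac {m D : ℕ} (hm : 0 < m) (h : Nat.totient m ≤ D) : m ∣ (2 * D)! := by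
  rw [Nat.dvd_iff_prime_pow_dvd_dvd]
  intro p a hp ha
  rcases Nat.eq_zero_or_pos a with h0 | h0
  · rw [h0, pow_zero]
    exact one_dvd _
  have hp' : p.Prime := hp
  have h1 : Nat.totient (p ^ a) ≤ Nat.totient m :=
    Nat.le_of_dvd (Nat.totient_pos.2 hm) (Nat.totient_dvd_of_dvd ha)
  rw [Nat.totient_prime_pow hp' h0] at h1
  have h2 : p ≤ 2 * (p - 1) := by
    have := hp'.two_le
    omega
  have h3 : p ^ a ≤ 2 * D := by
    calc p ^ a = p ^ (a - 1) * p := by
          rw [← pow_succ, Nat.sub_add_cancel h0]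
      _ ≤ p ^ (a - 1) * (2 * (p - 1)) := Nat.mul_le_mul_left _ h2
      _ = 2 * (p ^ (a - 1) * (p - 1)) := by ring
      _ ≤ 2 * D := Nat.mul_le_mul_left _ (h1.trans h)
  exact Nat.dvd_factorial (pow_pos hp'.pos a) h3

section cop

variable {κ : Type} [Field κ] [NumberField κ]

/-- the roots of unity of bounded degree -/
theorem cop_all {f : κ[X]} (hf : f ≠ 0) {D n0 : ℕ} (hD : f.natDegree * Module.finrank ℚ κ ≤ D)
    (hn0 : n0 = (2 * D)!) (hc : IsCoprime f (X * (X ^ n0 - 1))) :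
    ∀ n : ℕ, 0 < n → IsCoprime f (X * (X ^ n - 1)) := by
  intro n hn
  rw [isCoprime_iff_aeval_ne_zero_of_isAlgClosed κ (AlgebraicClosure κ)] at hc ⊢
  intro θ
  by_contra hcon
  push Not at hcon
  obtain ⟨h1, h2⟩ := hcon
  rcases hc θ with h3 | h3
  · exact h3 h1
  apply h3
  simp only [map_mul, map_sub, map_pow, aeval_X, map_one] at h2 ⊢
  rcases mul_eq_zero.1 h2 with h4 | h4
  · rw [h4, zero_mul]
  have h5 : θ ^ n = 1 := sub_eq_zero.1 h4
  have hfin : IsOfFinOrder θ := isOfFinOrder_iff_pow_eq_one.2 ⟨n, hn, h5⟩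
  have hpos : 0 < orderOf θ := hfin.orderOf_pos
  have hprim : IsPrimitiveRoot θ (orderOf θ) := IsPrimitiveRoot.orderOf θ
  haveI : CharZero (AlgebraicClosure κ) :=
    charZero_of_injective_algebraMap (algebraMap κ (AlgebraicClosure κ)).injective
  have h6 := cyclotomic_eq_minpoly_rat hprim hpos
  have h7 : Nat.totient (orderOf θ) = (minpoly ℚ θ).natDegree := by
    rw [← h6, natDegree_cyclotomic]
  have hint : IsIntegral κ θ := Algebra.IsIntegral.isIntegral θ
  haveI : FiniteDimensional κ κ⟮θ⟯ := IntermediateField.adjoin.finiteDimensional hint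
  haveI : IsScalarTower ℚ κ κ⟮θ⟯ := IsScalarTower.of_algebraMap_eq fun q => by simp
  haveI : FiniteDimensional ℚ κ⟮θ⟯ := FiniteDimensional.trans ℚ κ κ⟮θ⟯
  have h8 : Module.finrank κ κ⟮θ⟯ ≤ f.natDegree := by
    rw [IntermediateField.adjoin.finrank hint]
    exact natDegree_le_of_dvd (minpoly.dvd κ θ h1) hf
  have h9 : (minpoly ℚ θ).natDegree ≤ Module.finrank ℚ κ⟮θ⟯ := by
    have h10 := minpoly.natDegree_le (A := ℚ) (IntermediateField.AdjoinSimple.gen κ θ)
    haveI : IsScalarTower ℚ κ⟮θ⟯ (AlgebraicClosure κ) :=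
      IsScalarTower.of_algebraMap_eq fun q => by simp
    have h11 : minpoly ℚ (algebraMap κ⟮θ⟯ (AlgebraicClosure κ)
        (IntermediateField.AdjoinSimple.gen κ θ)) =
        minpoly ℚ (IntermediateField.AdjoinSimple.gen κ θ) :=
      minpoly.algebraMap_eq (algebraMap κ⟮θ⟯ (AlgebraicClosure κ)).injective _
    rw [IntermediateField.AdjoinSimple.algebraMap_gen] at h11
    rw [h11]
    exact h10
  have h12 : Module.finrank ℚ κ⟮θ⟯ = Module.finrank ℚ κ * Module.finrank κ κ⟮θ⟯ :=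
    (Module.finrank_mul_finrank ℚ κ κ⟮θ⟯).symm
  have h13 : Nat.totient (orderOf θ) ≤ D := by
    rw [h7]
    refine h9.trans ?_
    rw [h12, Nat.mul_comm]
    exact (Nat.mul_le_mul_right _ h8).trans hD
  have h14 : orderOf θ ∣ n0 := by
    rw [hn0]
    exact dvd_fac hpos h13
  have h15 : θ ^ n0 = 1 := orderOf_dvd_iff_pow_eq_one.1 h14
  rw [h15, sub_self, mul_zero]

end cop

section nf

variable {k : Type} [Field k] [NumberField k] {J : Type} [Fintype J] (B : Module.Basis J ℤ (𝓞 k))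
  {d : ℕ}

theorem deg_ru {L : Type} [Field L] {n : ℕ} (hn : 0 < n) :
    (X * (X ^ n - 1) : L[X]).natDegree = n + 1 := by
  have h1 : (X ^ n - 1 : L[X]) ≠ 0 := by
    have := X_pow_sub_C_ne_zero hn (1 : L)
    rwa [C_1] at this
  have h2 : (X ^ n - 1 : L[X]).natDegree = n := by
    have := natDegree_X_pow_sub_C (n := n) (r := (1 : L))
    rwa [C_1] at this
  rw [natDegree_X_mul h1, h2]

theorem qq_deg : (qq d).natDegree ≤ 6 * d := by
  have h1 : (ww d * wx (uu d) (ww d)).natDegree ≤ 3 * d := wb_deg uu_deg ww_deg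
  have h2 : (wg (uu d) (ww d)).natDegree ≤ 3 * d := wg_deg uu_deg ww_deg
  unfold qq qf
  refine (natDegree_sub_le _ _).trans (max_le ((natDegree_sub_le _ _).trans (max_le ?_ ?_)) ?_)
  · refine natDegree_pow_le.trans ?_
    omega
  · rw [show (11 : (MvPolynomial (I2 d) ℤ)[X]) = C 11 from (map_ofNat C 11).symm]
    refine (natDegree_C_mul_le _ _).trans (natDegree_mul_le.trans ?_)
    omega
  · refine natDegree_pow_le.trans ?_
    omega

theorem qq_top (hd : 1 ≤ d) : (qq d).coeff (6 * d) ≠ 0 := by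
  intro h
  obtain ⟨a, h1, h2⟩ := tg0 hd 0
  have h3 : ((qq d).map (av a)).coeff (6 * d) = 0 := by rw [coeff_map, h, map_zero]
  rw [qq, qf_map, h1, h2, C_0, zero_mul, zero_mul, sub_zero, add_zero] at h3
  unfold qf at h3
  have e : ((0 : ℤ[X]) ^ 2 - 11 * (0 * X ^ (3 * d)) - (X ^ (3 * d)) ^ 2) = -X ^ (6 * d) := by
    rw [← pow_mul, show 3 * d * 2 = 6 * d by ring]
    ring
  rw [e, coeff_neg, coeff_X_pow, if_pos rfl] at h3
  norm_num at h3

/-- the resultant is not zero -/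
theorem res_ne (hd : 1 ≤ d) {n : ℕ} (hn : 0 < n) :
    resultant (qq d) (X * (X ^ n - 1)) (6 * d) (n + 1) ≠ 0 := by
  intro h
  obtain ⟨a, h1, h2⟩ : ∃ a : I2 d → ℤ, (uu d).map (av a) = X ^ d + C 2 ∧ (ww d).map (av a) = 0 := by
    refine ⟨Sum.elim (Pi.single (Fin.last d) 1 + Pi.single 0 2) (fun _ => 0), ?_, ?_⟩
    · rw [uu_map]
      show polA (Pi.single (Fin.last d) 1 + Pi.single 0 2 : Fin (d + 1) → ℤ) = _
      rw [polA_add', polA_single, polA_single, Fin.val_last, Fin.val_zero, C_1, one_mul, pow_zero,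
        mul_one]
    · rw [ww_map]
      exact polA_zero
  set ψ : MvPolynomial (I2 d) ℤ →+* ℂ := (Int.castRingHom ℂ).comp (av a) with hψ
  have h3 : (qq d).map ψ = -(X ^ d + C 2) ^ 6 := by
    rw [hψ, ← Polynomial.map_map, qq, qf_map, Polynomial.map_mul, wg_map, wx_map, h1, h2]
    unfold qf wg
    have e : (((0 : ℤ[X]) * wx (X ^ d + C 2) 0) ^ 2 - 11 * (0 * wx (X ^ d + C 2) 0 *
        ((X ^ d + C 2) ^ 3 - (X ^ d + C 2 - 1) * 0)) - ((X ^ d + C 2) ^ 3 -
        (X ^ d + C 2 - 1) * 0) ^ 2) = -(X ^ d + C 2) ^ 6 := by ring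
    rw [e, Polynomial.map_neg, Polynomial.map_pow, Polynomial.map_add, Polynomial.map_pow, map_X,
      map_C]
    simp
  have h4 : (X * (X ^ n - 1) : (MvPolynomial (I2 d) ℤ)[X]).map ψ = X * (X ^ n - 1) := by
    simp
  have h5 := resultant_map_map (qq d) (X * (X ^ n - 1)) (6 * d) (n + 1) ψ
  rw [h, map_zero, h3, h4] at h5
  have dg1 : (-(X ^ d + C 2) ^ 6 : ℂ[X]).natDegree = 6 * d := by
    rw [natDegree_neg, natDegree_pow, natDegree_X_pow_add_C]
  have dg2 : (X * (X ^ n - 1) : ℂ[X]).natDegree = n + 1 := deg_ru hn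
  have h6 : resultant (-(X ^ d + C 2) ^ 6 : ℂ[X]) (X * (X ^ n - 1)) = 0 := by
    rw [dg1, dg2]
    exact h5
  rw [resultant_eq_zero_iff] at h6
  apply h6.2
  rw [isCoprime_iff_aeval_ne_zero_of_isAlgClosed ℂ ℂ]
  intro θ
  by_contra hcon
  push Not at hcon
  obtain ⟨h7, h8⟩ := hcon
  simp only [map_mul, map_sub, map_pow, aeval_X, map_one, map_neg, map_add, aeval_C] at h7 h8
  have h9 : θ ^ d + (algebraMap ℂ ℂ) 2 = 0 := by
    have := neg_eq_zero.1 h7
    exact pow_eq_zero_iff (by norm_num) |>.1 this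
  have h10 : θ ^ d = -2 := by
    have e : (algebraMap ℂ ℂ) 2 = 2 := rfl
    rw [e] at h9
    linear_combination h9
  have h11 : ‖θ‖ ^ d = 2 := by
    rw [← norm_pow, h10, norm_neg]
    norm_num
  rcases mul_eq_zero.1 h8 with h12 | h12
  · rw [h12, norm_zero, zero_pow (by omega)] at h11
    norm_num at h11
  · have h13 : ‖θ‖ ^ n = 1 := by
      rw [← norm_pow, sub_eq_zero.1 h12, norm_one]
    have h14 : ‖θ‖ = 1 := (pow_eq_one_iff_of_nonneg (norm_nonneg θ) (by omega)).1 h13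
    rw [h14, one_pow] at h11
    norm_num at h11

/-- **Coprime to the roots of unity of bounded order.** -/
theorem dens_ru (hd : 1 ≤ d) {n : ℕ} (hn : 0 < n) :
    D0 {x : I2 d × J → ℤ | ¬ IsCoprime ((qq d).map (av (kv B x))) (X * (X ^ n - 1))} := by
  have h1 := dens_lead (ω := B) (P := C (resultant (qq d) (X * (X ^ n - 1)) (6 * d) (n + 1)))
    (N := 0) (by rw [coeff_C_zero]; exact res_ne hd hn)
  intro ε hε
  refine (h1 ε hε).mono ?_
  intro x hx
  by_contra hcon
  apply hx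
  rw [Set.mem_setOf_eq, Polynomial.map_C, coeff_C_zero] at hcon
  have h2 := resultant_map_map (qq d) (X * (X ^ n - 1)) (6 * d) (n + 1) (av (kv B x))
  have h4 : (X * (X ^ n - 1) : (MvPolynomial (I2 d) ℤ)[X]).map (av (kv B x)) =
      (X * (X ^ n - 1) : k[X]) := by
    rw [Polynomial.map_mul, Polynomial.map_sub, Polynomial.map_pow, map_X, Polynomial.map_one]
  rw [h4] at h2
  rw [← h2] at hcon
  obtain ⟨p, q, -, -, e⟩ := exists_mul_add_mul_eq_C_resultant ((qq d).map (av (kv B x)))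
    (X * (X ^ n - 1)) (m := 6 * d) (n := n + 1) (natDegree_map_le.trans qq_deg) (deg_ru hn).le
    (Or.inl (by omega))
  set r := resultant ((qq d).map (av (kv B x))) (X * (X ^ n - 1)) (6 * d) (n + 1) with hr
  refine ⟨p * C r⁻¹, q * C r⁻¹, ?_⟩
  have h5 : C r * C r⁻¹ = (1 : k[X]) := by rw [← C_mul, mul_inv_cancel₀ hcon, C_1]
  linear_combination (C r⁻¹) * e + h5

end nf

end Pool.Agent.Helper70K9.R5
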